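import Mathlib
import Pool.Agent.Z700.Defs

/-!
# Twists of `X_0(24)` by `-n`, `n ≡ 11 mod 24` squarefree: definitions and statements

The definite side counts vectors of `ℤ³`, the indefinite side consists of binary forms of
discriminant `1` and level `6` with signs (`η(z) η(2z) η(3z) η(6z)` is a form on `Γ₀(6)` with a
character of order two, and its value at `2 z` is the newform of level `24`).
-/

set_option autoImplicit false

namespace Pool.Agent.N877.P24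

open Finset Matrix
open Pool.Agent.Z700 (V3 vec cp hh fac chi12)

noncomputable section

/-- the number of vectors of norm `n` -/
def rr (n : ℤ) : ℤ := (vec n).card

/-- the sign of a vector of norm `≡ 11 mod 24`: one coordinate is divisible by `3` -/
def psi (v : V3) : ℤ := ∏ i, if (3 : ℤ) ∣ v i then 1 else chi12 (v i)

/-- the weight of a vector of norm `≡ 3 mod 24` -/
def phi (v : V3) : ℤ := -(chi12 (v 0) * chi12 (v 1) + chi12 (v 1) * chi12 (v 2) +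
  chi12 (v 0) * chi12 (v 2))

/-- the Gross sum -/
def cc (n : ℤ) : ℤ := if n % 3 = 0 then ∑ v ∈ vec n, phi v else ∑ v ∈ vec n, psi v

/-- the factor at `2` -/
def k2 (D : ℕ) : ℤ := if D.factorization 2 = 3 then -1 else 3

/-- the local densities with the count at `3` of the pairs with a common line -/
def loc3 (n1 D : ℕ) : ℤ :=
  if Odd (D.factorization 2) then
    (D.factorization 3 : ℤ) * ∏ l ∈ (D.primeFactors.erase 2).erase 3, fac n1 D l
  else 0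

/-- the number of pairs with inner product divisible by `3`, which are proportional modulo `4` -/
def cp0 (n1 n2 : ℤ) : ℕ := ((vec n1 ×ˢ vec n2).filter fun q => (3 : ℤ) ∣ q.1 ⬝ᵥ q.2 ∧
  (32 : ℤ) ∣ n1 * n2 - (q.1 ⬝ᵥ q.2) ^ 2).card

/-- the number of pairs with inner product `b` which are proportional modulo `3` -/
def cp3 (n1 b n2 : ℤ) : ℕ := ((vec n1 ×ˢ vec n2).filter fun q =>
  q.1 ⬝ᵥ q.2 = b ∧ ∀ i, (3 : ℤ) ∣ q.1 i + b * q.2 i).card

/-! ### the relations with the Gross sums -/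

/-- REL33 -/
def S_REL33 : Prop := ∀ n1 n2 : ℕ, n1 % 24 = 3 → ¬ 9 ∣ n1 → n2 % 24 = 3 → ¬ 9 ∣ n2 →
  48 * (cp0 n1 n2 : ℤ) = 3 * rr n1 * rr n2 + cc n1 * cc n2

/-- REL32 -/
def S_REL32 : Prop := ∀ n1 n2 : ℕ, n1 % 24 = 3 → ¬ 9 ∣ n1 → n2 % 24 = 11 →
  24 * (cp0 n1 n2 : ℤ) = 3 * rr n1 * rr n2 + cc n1 * cc n2

/-- REL31 -/
def S_REL31 : Prop := ∀ n1 n2 : ℕ, n1 % 24 = 3 → ¬ 9 ∣ n1 → n2 % 24 = 19 → cp0 n1 n2 = 0

/-- REL22: the pairs with a common isotropic line modulo `3`, with given signs at `3` and `4`,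
proportional modulo `4` -/
def S_REL22 : Prop := ∀ n1 n2 : ℕ, n1 % 24 = 11 → n2 % 24 = 11 →
  ∀ r3 r4 : ℤ, (r3 = 1 ∨ r3 = 2) → (r4 = 1 ∨ r4 = 3) → ∀ B : ℤ, (n1 : ℤ) * n2 < B ^ 2 → 0 < B →
  48 * ∑ b ∈ (Ioo (-B) B).filter
      (fun b : ℤ => b % 3 = r3 ∧ b % 4 = r4 ∧ (32 : ℤ) ∣ n1 * n2 - b ^ 2),
    ((cp n1 b n2 : ℤ) + cp3 n1 b n2) = 3 * rr n1 * rr n2 + cc n1 * cc n2

/-- FULL22: the same without the condition modulo `4` -/
def S_FULL22 : Prop := ∀ n1 n2 : ℕ, n1 % 24 = 11 → n2 % 24 = 11 →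
  ∀ r3 r4 : ℤ, (r3 = 1 ∨ r3 = 2) → (r4 = 1 ∨ r4 = 3) → ∀ B : ℤ, (n1 : ℤ) * n2 < B ^ 2 → 0 < B →
  4 * ∑ b ∈ (Ioo (-B) B).filter (fun b : ℤ => b % 3 = r3 ∧ b % 4 = r4),
    ((cp n1 b n2 : ℤ) + cp3 n1 b n2) = rr n1 * rr n2

/-- CP3: evaluation of the counts for a given inner product -/
def S_CP3 : Prop := ∀ (n1 n2 : ℕ) (b : ℤ) (D : ℕ), Squarefree n1 → n1 % 24 = 11 → n2 % 24 = 11 →
  Odd b → ¬ (3 : ℤ) ∣ b → 0 < D → (D : ℤ) = n1 * n2 - b ^ 2 →
  (cp n1 b n2 : ℤ) + cp3 n1 b n2 = 48 * loc3 n1 D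

/-- the class of the main theorem -/
def Cls0 (n : ℕ) : Prop := Squarefree n ∧ n % 24 = 11

/-- the auxiliary class `3 m` -/
def Cls3 (m : ℕ) : Prop := Squarefree m ∧ m % 8 = 1 ∧ ¬ 3 ∣ m

/-- the arithmetic side of the bilinear identity -/
def AA (n : ℕ) : ℤ := ∑ T ∈ (range n).filter (fun T => T % 6 = 3),
  k2 (4 * (n - T) * T) * loc3 n (4 * (n - T) * T)

/-- BIL: the bilinear identity -/
def S_BIL : Prop := ∀ n : ℕ, Cls0 n → 576 * AA n = cc n ^ 2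

/-! ### divisibility and parity -/

/-- U33 -/
def S_U33 : Prop := ∀ m : ℕ, Cls3 m → 1 < m →
  (24 * 2 ^ (m.primeFactors.card + 1) : ℤ) ∣
    ∑ d ∈ m.divisors.filter (fun d => d % 8 = 1), (cp0 (3 * d : ℕ) (3 * (m / d) : ℕ) : ℤ)

/-- U32 -/
def S_U32 : Prop := ∀ n : ℕ, Cls0 n →
  (24 * 2 ^ n.primeFactors.card : ℤ) ∣
    ∑ d ∈ n.divisors.filter (fun d => d % 8 = 1), (cp0 (3 * d : ℕ) (n / d : ℕ) : ℤ)

/-- the elementary form of the absence of ideal classes of order four: only the trivial factorizations of `n`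
are solvable -/
def Qc (n : ℕ) : Prop := ∀ b c : ℕ, b * c = n → (∀ p ∈ c.primeFactors, jacobiSym b p = 1) →
  (∀ p ∈ b.primeFactors, jacobiSym c p = 1) → b = 1 ∨ c = 1

/-- R: the parity of the number of vectors -/
def S_R : Prop := ∀ n : ℕ, Squarefree n → n % 8 = 3 → 3 < n →
  ∃ g : ℤ, rr n = 12 * 2 ^ n.primeFactors.card * g ∧ (Odd g ↔ Qc n)

/-- PAR: the parity of the Gross sum -/
def S_PAR : Prop := ∀ n : ℕ, Cls0 n →
  ∃ y : ℤ, cc n = 12 * 2 ^ n.primeFactors.card * y ∧ (Odd y ↔ Qc n)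

/-! ### the symbol -/

/-- the forms `A x² + B x y + C y²` of discriminant `1` entering the symbol -/
def Fm (q : ℤ × ℤ × ℤ) : Prop := q.2.1 ^ 2 - 4 * q.1 * q.2.2 = 1 ∧ (6 : ℤ) ∣ q.1 ∧
  (q.2.1 % 12 = 5 ∨ q.2.1 % 12 = 7)

/-- the weight of a form: a sign for the orientation times the character -/
def cQ (q : ℤ × ℤ × ℤ) : ℤ := (if q.2.1 % 12 = 5 then 1 else -1) *
  (if (2 : ℤ) ∣ q.1 / 2 + q.2.2 then 1 else -1)

open Classical in
/-- the number of forms changing sign between `∞` and `x / M` -/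
def Fp (x M : ℤ) : ℤ := ∑ᶠ q : ℤ × ℤ × ℤ,
  if Fm q ∧ 0 < q.1 ∧ q.1 * x ^ 2 + q.2.1 * x * M + q.2.2 * M ^ 2 < 0 then cQ q else 0

/-- the local weight at `p` -/
def psp (p a a' Y X : ℕ) : ℤ := if p ∣ a ∧ p ∣ X then jacobiSym ((a' * Y : ℕ) : ℤ) p
  else jacobiSym (-((a * X : ℕ) : ℤ)) p

/-- the character of a factorization -/
def sg (a Y : ℕ) : ℤ := if 2 ∣ Y + a / 2 then 1 else -1

/-- the divisor sum of the indefinite side -/
def WW (n S T : ℕ) : ℤ :=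
  ∑ a ∈ S.divisors.filter (fun a => 2 ∣ a ∧ ¬ 3 ∣ a), ∑ c ∈ T.divisors.filter (3 ∣ ·),
    sg a (S / a) * ∏ p ∈ n.primeFactors, psp p a c (S / a) (T / c)

/-- the units modulo `n` represented by naturals -/
def un (n : ℕ) : Finset ℕ := (range n).filter fun u => Nat.Coprime u n

/-- the sum of the divisor sums -/
def WT (n : ℕ) : ℤ := ∑ T ∈ (range n).filter (fun T => T % 6 = 3), WW n (n - T) T

/-- the sum over the cusps for `a Y + c X = n` -/
def WU (n : ℕ) : ℤ := ∑ T ∈ (range n).filter (fun T => T % 6 = 3),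
  ∑ a ∈ (n - T).divisors.filter (fun a => 2 ∣ a ∧ ¬ 3 ∣ a), ∑ c ∈ T.divisors.filter (3 ∣ ·),
    sg a ((n - T) / a) *
    ∑ u ∈ (un n).filter (fun u : ℕ => (n : ℤ) ∣ (a : ℤ) * (u : ℤ) + ((T / c : ℕ) : ℤ) ∧
      (n : ℤ) ∣ (c : ℤ) * (u : ℤ) - (((n - T) / a : ℕ) : ℤ)), jacobiSym u n

/-- C1A: the forms and the cusps as factorizations -/
def S_C1A : Prop := ∀ n : ℕ, Cls0 n →
  ∑ u ∈ un n, jacobiSym u n * Fp (2 * u) n = 2 * WU n

/-- C1B: the character sum over the cusps for a given matrix of determinant `n` -/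
def S_C1B : Prop := ∀ n : ℕ, Squarefree n → n % 4 = 3 →
  ∀ a a' X Y : ℕ, a * Y + a' * X = n →
  ∑ u ∈ (un n).filter (fun u : ℕ => (n : ℤ) ∣ (a : ℤ) * (u : ℤ) + (X : ℤ) ∧
    (n : ℤ) ∣ (a' : ℤ) * (u : ℤ) - (Y : ℤ)), jacobiSym u n = ∏ p ∈ n.primeFactors, psp p a a' Y X

/-- C2: evaluation of the divisor sums -/
def S_C2 : Prop := ∀ n : ℕ, Cls0 n → ∀ T : ℕ, 0 < T → T < n → T % 6 = 3 →
  WW n (n - T) T = - (k2 (4 * (n - T) * T) * loc3 n (4 * (n - T) * T))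

/-- DIAG: the character sum of `Fp` is a square up to a factor -/
def S_DIAG : Prop := ∀ n : ℕ, Cls0 n →
  288 * ∑ u ∈ un n, jacobiSym u n * Fp (2 * u) n = - cc n ^ 2

theorem diag_of (h1 : S_C1A) (h2 : S_C1B) (h3 : S_C2) (h4 : S_BIL) : S_DIAG := by
  intro n hn
  have hW : WU n = WT n := by
    unfold WU WT WW
    refine sum_congr rfl fun T hT => ?_
    rw [mem_filter, mem_range] at hT
    refine sum_congr rfl fun a ha => sum_congr rfl fun c hc => ?_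
    rw [mem_filter, Nat.mem_divisors] at ha hc
    congr 1
    refine h2 n hn.1 (by have := hn.2; omega) a c (T / c) ((n - T) / a) ?_
    rw [Nat.mul_div_cancel' ha.1.1, Nat.mul_div_cancel' hc.1.1]
    omega
  have hT : WT n = - AA n := by
    unfold WT AA
    rw [← sum_neg_distrib]
    refine sum_congr rfl fun T hT => ?_
    rw [mem_filter, mem_range] at hT
    exact h3 n hn T (by omega) hT.1 hT.2
  rw [h1 n hn, hW, hT, ← h4 n hn]
  ring

end

end Pool.Agent.N877.P24
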