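import Pool.Agent.N855.P15.Par

/-!
# The parity of the number of factorizations in a genus, for any class `a` with `(a/n) = 1`

Generalization of `Pool/Agent/N855/P15/AA5.lean` (there `a = -5`).
-/

set_option autoImplicit false

open Finset

namespace Pool.Agent.N877.P24

open Pool.Agent.N855.P15 (Cnd PP sy sg sg_sy sg_inj sg_sum jac_prod_right dv_bij LL LL_one LL_sum lin
  Qj Qj_iff cnd_symm)

theorem card_cnd {n : ℕ} (hn : Squarefree n) (h3 : n % 4 = 3) (a : ℤ)
    (ha : ∀ p ∈ n.primeFactors, a.gcd (p : ℤ) = 1) (hj : jacobiSym a n = 1) :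
    Nat.card {d : ℕ // d ∣ n ∧ Cnd n (fun p => jacobiSym a p) d} % 4 = 2 ↔ Qj n := by
  have hn1 : n ≠ 1 := by omega
  have : Nonempty (PP n) := by
    obtain ⟨p, hp⟩ := Nat.nonempty_primeFactors.2 (show 1 < n by omega)
    exact ⟨⟨p, hp⟩⟩
  have hg : ∀ p : PP n, a.gcd ((p : ℕ) : ℤ) = 1 := fun p => ha p p.2
  let κ : PP n → ZMod 2 := fun p => sy a p
  have hκ : ∀ p : PP n, (fun p : ℕ => jacobiSym a p) p = sg (κ p) := by
    intro p
    exact (sg_sy (hg p)).symm
  have hκ0 : ∑ p, κ p = 0 := by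
    apply sg_inj
    rw [sg_sum]
    have h1 : ∏ p : PP n, sg (κ p) = ∏ p : PP n, jacobiSym a (p : ℕ) :=
      prod_congr rfl fun p _ => (hκ p).symm
    rw [h1, Finset.prod_coe_sort n.primeFactors (fun p => jacobiSym a p),
      ← jac_prod_right a n.primeFactors fun p hp => Nat.prime_of_mem_primeFactors hp,
      Nat.prod_primeFactors_of_squarefree hn, hj]
    rfl
  rw [← dv_bij hn κ _ hκ, lin (LL n) (LL_one n) (LL_sum hn h3) κ hκ0, Qj_iff hn]

open Classical in
/-- the smaller divisors -/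
noncomputable def DD (n : ℕ) (a : ℤ) : Finset ℕ :=
  n.divisors.filter fun d => Cnd n (fun p => jacobiSym a p) d ∧ d * d < n

open Classical in
theorem card_two {n : ℕ} (hn : Squarefree n) (h3 : n % 4 = 3) (a : ℤ) :
    Nat.card {d : ℕ // d ∣ n ∧ Cnd n (fun p => jacobiSym a p) d} = 2 * (DD n a).card := by
  have h1 : Nat.card {d : ℕ // d ∣ n ∧ Cnd n (fun p => jacobiSym a p) d} =
      (n.divisors.filter fun d => Cnd n (fun p => jacobiSym a p) d).card := by
    refine Nat.subtype_card _ fun d => ?_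
    rw [mem_filter, Nat.mem_divisors]
    exact ⟨fun h => ⟨h.1.1, h.2⟩, fun h => ⟨⟨h.1, hn.ne_zero⟩, h.2⟩⟩
  have h2 : (n.divisors.filter fun d => Cnd n (fun p => jacobiSym a p) d).card =
      (DD n a).card + (n.divisors.filter fun d => Cnd n (fun p => jacobiSym a p) d ∧
        ¬ d * d < n).card := by
    unfold DD
    rw [← Finset.filter_filter, ← Finset.filter_filter]
    exact (Finset.card_filter_add_card_filter_not _).symm
  have h4 : (DD n a).card = (n.divisors.filter fun d => Cnd n (fun p => jacobiSym a p) d ∧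
        ¬ d * d < n).card := by
    have hsq : ∀ d, d * d ≠ n := by
      intro d hd
      have : d % 4 = 0 ∨ d % 4 = 1 ∨ d % 4 = 2 ∨ d % 4 = 3 := by omega
      rcases this with h | h | h | h <;> rw [← hd, Nat.mul_mod, h] at h3 <;> omega
    refine Finset.card_nbij' (fun d => n / d) (fun d => n / d) ?_ ?_ ?_ ?_
    · intro d hd
      unfold DD at hd
      obtain ⟨h1, h2, h4⟩ := mem_filter.1 hd
      obtain ⟨E, hE⟩ := Nat.dvd_of_mem_divisors h1
      have hd0 : 0 < d := Nat.pos_of_ne_zero fun h0 => hn.ne_zero (by rw [hE, h0, zero_mul])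
      have hE' : n / d = E := Nat.div_eq_of_eq_mul_right hd0 hE
      simp only
      rw [hE']
      refine mem_filter.2 ⟨Nat.mem_divisors.2 ⟨⟨d, by rw [hE, mul_comm]⟩, hn.ne_zero⟩,
        cnd_symm hn hE.symm _ h2, ?_⟩
      rw [not_lt]
      have hdE : d < E := by
        rw [hE] at h4
        exact lt_of_mul_lt_mul_left h4 hd0.le
      rw [hE]
      exact Nat.mul_le_mul_right E hdE.le
    · intro d hd
      obtain ⟨h1, h2, h4⟩ := mem_filter.1 hd
      obtain ⟨E, hE⟩ := Nat.dvd_of_mem_divisors h1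
      have hd0 : 0 < d := Nat.pos_of_ne_zero fun h0 => hn.ne_zero (by rw [hE, h0, zero_mul])
      have hE' : n / d = E := Nat.div_eq_of_eq_mul_right hd0 hE
      simp only
      rw [hE']
      unfold DD
      refine mem_filter.2 ⟨Nat.mem_divisors.2 ⟨⟨d, by rw [hE, mul_comm]⟩, hn.ne_zero⟩,
        cnd_symm hn hE.symm _ h2, ?_⟩
      have h5 : n < d * d := lt_of_le_of_ne (not_lt.1 h4) (Ne.symm (hsq d))
      rw [hE] at h5 ⊢
      have hdE : E < d := lt_of_mul_lt_mul_left h5 hd0.le
      have hE0 : 0 < E := Nat.pos_of_ne_zero fun h0 => hn.ne_zero (by rw [hE, h0, mul_zero])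
      exact Nat.mul_lt_mul_of_pos_right hdE hE0
    · intro d hd
      unfold DD at hd
      obtain ⟨h1, h2, h4⟩ := mem_filter.1 hd
      exact Nat.div_div_self (Nat.dvd_of_mem_divisors h1) hn.ne_zero
    · intro d hd
      obtain ⟨h1, h2, h4⟩ := mem_filter.1 hd
      exact Nat.div_div_self (Nat.dvd_of_mem_divisors h1) hn.ne_zero
  rw [h1, h2, ← h4]
  ring

/-- the factorizations `n = r s`, `r < s`, with `a s` a square modulo `r` and `a r` a square
modulo `s` -/
def AAf (n : ℕ) (a : ℤ) : Finset ℕ := n.divisors.filter fun r => r * r < n ∧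
  (∀ p ∈ r.primeFactors, jacobiSym (a * ((n / r : ℕ) : ℤ)) p = 1) ∧
  (∀ p ∈ (n / r).primeFactors, jacobiSym (a * (r : ℤ)) p = 1)

/-- **the parity** -/
theorem aaf {n : ℕ} (hn : Squarefree n) (h4 : n % 4 = 3) (a : ℤ)
    (ha : ∀ p ∈ n.primeFactors, a.gcd (p : ℤ) = 1) (hj : jacobiSym a n = 1) :
    Odd (AAf n a).card ↔ Qj n := by
  classical
  rw [← card_cnd hn h4 a ha hj, card_two hn h4]
  have h2 : AAf n a = DD n a := by
    unfold DD AAf
    apply filter_congr
    intro r hr
    rw [and_comm (b := r * r < n)]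
    refine and_congr_right fun _ => ?_
    obtain ⟨E, hE⟩ := Nat.dvd_of_mem_divisors hr
    have hr0 : 0 < r := Nat.pos_of_ne_zero fun h0 => hn.ne_zero (by rw [hE, h0, zero_mul])
    have hE0 : E ≠ 0 := fun h0 => hn.ne_zero (by rw [hE, h0, mul_zero])
    have hE' : n / r = E := Nat.div_eq_of_eq_mul_right hr0 hE
    rw [hE']
    have hdE : ∀ p ∈ n.primeFactors, (p ∣ r ∧ ¬ p ∣ E) ∨ (¬ p ∣ r ∧ p ∣ E) := by
      intro p hp
      have hpp := Nat.prime_of_mem_primeFactors hp
      have hpn := Nat.dvd_of_mem_primeFactors hp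
      by_cases h1 : p ∣ r
      · left
        refine ⟨h1, fun h2 => ?_⟩
        have h7 : p * p ∣ n := by
          rw [hE]
          exact mul_dvd_mul h1 h2
        exact hpp.one_lt.ne' (Nat.isUnit_iff.1 (hn p h7))
      · right
        refine ⟨h1, ?_⟩
        rw [hE] at hpn
        exact ((Nat.Prime.dvd_mul hpp).1 hpn).resolve_left h1
    have hs : ∀ (x : ℕ) (p : ℕ), p.Prime → p ∣ n → ¬ p ∣ x →
        (jacobiSym (a * (x : ℤ)) p = 1 ↔ jacobiSym (x : ℤ) p = jacobiSym a p) := by
      intro x p hp hpn hpx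
      rw [jacobiSym.mul_left]
      have g1 : a.gcd p = 1 := ha p (Nat.mem_primeFactors.2 ⟨hp, hpn, hn.ne_zero⟩)
      have g2 : (x : ℤ).gcd p = 1 := by
        rw [Int.gcd_natCast_natCast]
        exact ((Nat.Prime.coprime_iff_not_dvd hp).2 hpx).symm
      rcases jacobiSym.eq_one_or_neg_one g1 with k1 | k1 <;>
        rcases jacobiSym.eq_one_or_neg_one g2 with k2 | k2 <;> rw [k1, k2] <;> norm_num
    constructor
    · rintro ⟨a1, a2⟩ p hp
      have hpp := Nat.prime_of_mem_primeFactors hp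
      have hpn := Nat.dvd_of_mem_primeFactors hp
      rw [hE']
      rcases hdE p hp with ⟨b1, b2⟩ | ⟨b1, b2⟩
      · rw [if_pos b1]
        exact (hs E p hpp hpn b2).1 (a1 p (Nat.mem_primeFactors.2 ⟨hpp, b1, hr0.ne'⟩))
      · rw [if_neg b1]
        exact (hs r p hpp hpn b1).1 (a2 p (Nat.mem_primeFactors.2 ⟨hpp, b2, hE0⟩))
    · intro hc
      constructor
      · intro p hp
        have hpp := Nat.prime_of_mem_primeFactors hp
        have b1 := Nat.dvd_of_mem_primeFactors hp
        have hpn : p ∣ n := b1.trans ⟨E, hE⟩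
        have hp' : p ∈ n.primeFactors := Nat.mem_primeFactors.2 ⟨hpp, hpn, hn.ne_zero⟩
        have b2 : ¬ p ∣ E := by
          rcases hdE p hp' with h | h
          · exact h.2
          · exact absurd b1 h.1
        have := hc p hp'
        rw [if_pos b1, hE'] at this
        exact (hs E p hpp hpn b2).2 this
      · intro p hp
        have hpp := Nat.prime_of_mem_primeFactors hp
        have b2 := Nat.dvd_of_mem_primeFactors hp
        have hpn : p ∣ n := b2.trans ⟨r, by rw [hE, mul_comm]⟩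
        have hp' : p ∈ n.primeFactors := Nat.mem_primeFactors.2 ⟨hpp, hpn, hn.ne_zero⟩
        have b1 : ¬ p ∣ r := by
          rcases hdE p hp' with h | h
          · exact absurd b2 h.2
          · exact h.1
        have := hc p hp'
        rw [if_neg b1] at this
        exact (hs r p hpp hpn b1).2 this
  rw [h2, Nat.odd_iff]
  omega

end Pool.Agent.N877.P24
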