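import Pool.Agent.N877.P24.LV
import Pool.Agent.Y687.Lfin

/-!
# The Euler product of the twist of `X_0(24)` by `-n` in terms of the numbers of points
-/

set_option autoImplicit false
set_option linter.style.haveILetI false

open Finset

namespace Pool.Agent.N877.P24

open Pool.Agent.N971.MF (E24 W)
open Pool.Agent.N971.MF.EUL (ap_twist affCount_W ap_E24_two W_Δ)
open Pool.Agent.W97.MT (ap affCount)
open Pool.Agent.Y687 (p_cpow)

theorem ap_W_two {n : ℕ} (h2 : n % 2 = 1) : ap (W n) 2 = 0 := by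
  have e : affCount (W n) 2 = Nat.card {P : ZMod 2 × ZMod 2 // P.2 ^ 2 = P.1 ^ 3 + P.1} := by
    unfold affCount
    refine Nat.card_congr (Equiv.subtypeEquivRight fun P => ?_)
    rw [WeierstrassCurve.Affine.equation_iff]
    simp only [W, WeierstrassCurve.map, map_zero, eq_intCast]
    have hn : ((n : ℕ) : ZMod 2) = 1 := by
      have : ((n : ℕ) : ZMod 2) = ((n % 2 : ℕ) : ZMod 2) := by rw [ZMod.natCast_mod]
      rw [this, h2, Nat.cast_one]
    push_cast
    rw [hn]
    revert P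
    decide
  unfold ap
  rw [e, Nat.card_eq_fintype_card]
  decide

theorem ap_W_dvd {n p : ℕ} (hp : p.Prime) (hp2 : p ≠ 2) (hd : p ∣ n) : ap (W n) p = 0 := by
  haveI : Fact p.Prime := ⟨hp⟩
  have hchar : ringChar (ZMod p) ≠ 2 := by rw [ZMod.ringChar_zmod_n]; exact hp2
  have h0 : ((n : ℕ) : ZMod p) = 0 := (ZMod.natCast_eq_zero_iff n p).2 hd
  have h1 := affCount_W p hp2 n
  have h2 : ∑ x : ZMod p, quadraticChar (ZMod p) (x * (x + n) * (x - 3 * n)) = 0 := by
    rw [← quadraticChar_sum_zero hchar]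
    refine Finset.sum_congr rfl fun x _ => ?_
    rw [h0, add_zero, mul_zero, sub_zero]
    by_cases hx : x = 0
    · rw [hx]
      simp
    · rw [map_mul, map_mul]
      have := quadraticChar_sq_one' (F := ZMod p) hx
      have h3 := quadraticChar_sq_one (F := ZMod p) hx
      rw [mul_assoc, ← sq, h3, mul_one]
  unfold ap
  rw [h1, h2]
  ring

theorem euler_W {n : ℕ} (h24 : n % 24 = 11) {s v : ℂ}
    (h : HasProd (fun p : Nat.Primes =>
        (1 - (ap E24 p : ℂ) * jacobiSym p n * (p : ℂ) ^ (-s) +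
          (if (p : ℕ) ∣ 24 then 0 else (p : ℂ)) * (jacobiSym p n : ℂ) ^ 2 *
            (p : ℂ) ^ (-2 * s))⁻¹) v) :
    HasProd (fun p : Nat.Primes => (1 - (ap (W n) p : ℂ) * ((p : ℕ) : ℂ) ^ (-s) +
      (if ((p : ℕ) : ℤ) ∣ (W n).Δ then 0 else ((p : ℕ) : ℂ) ^ (1 - 2 * s)))⁻¹) v := by
  refine (congrArg (fun g => HasProd g _) (funext fun p => ?_)).mp h
  have hp : (p : ℕ).Prime := p.2
  haveI : Fact (p : ℕ).Prime := ⟨hp⟩
  have h4 : n % 4 = 3 := by omega
  haveI : NeZero n := ⟨by omega⟩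
  have hΔ : ((p : ℕ) : ℤ) ∣ (W n).Δ ↔ (p : ℕ) ∣ 24 ∨ (p : ℕ) ∣ n := by
    rw [W_Δ]
    have e : (2304 * (n : ℤ) ^ 6) = ((2304 * n ^ 6 : ℕ) : ℤ) := by push_cast; ring
    rw [e, Int.natCast_dvd_natCast, hp.dvd_mul]
    have e2 : (p : ℕ) ∣ 2304 ↔ (p : ℕ) ∣ 24 := by
      constructor
      · intro h
        have : (p : ℕ) ∣ 24 ^ 3 := h.trans (by norm_num)
        exact hp.dvd_of_dvd_pow this
      · intro h
        exact (h.trans (by norm_num : 24 ∣ 2304))
    rw [e2]
    constructor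
    · rintro (h | h)
      · exact Or.inl h
      · exact Or.inr (hp.dvd_of_dvd_pow h)
    · rintro (h | h)
      · exact Or.inl h
      · exact Or.inr (dvd_pow h (by norm_num))
  by_cases hpn : (p : ℕ) ∣ n
  · have h0 : jacobiSym ((p : ℕ) : ℤ) n = 0 := by
      rw [jacobiSym.eq_zero_iff_not_coprime, Int.gcd_natCast_natCast]
      intro hg
      have := Nat.dvd_gcd (dvd_refl (p : ℕ)) hpn
      rw [hg] at this
      exact hp.one_lt.ne' (Nat.dvd_one.1 this)
    have hp2 : (p : ℕ) ≠ 2 := by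
      intro h
      rw [h] at hpn
      omega
    rw [h0, if_pos (hΔ.2 (Or.inr hpn)), ap_W_dvd hp hp2 hpn]
    simp
  · have hx : jacobiSym ((p : ℕ) : ℤ) n = 1 ∨ jacobiSym ((p : ℕ) : ℤ) n = -1 := by
      refine jacobiSym.eq_one_or_neg_one ?_
      rw [Int.gcd_natCast_natCast]
      exact (Nat.Prime.coprime_iff_not_dvd hp).2 hpn
    have hx2 : ((jacobiSym ((p : ℕ) : ℤ) n : ℤ) : ℂ) ^ 2 = 1 := by
      rcases hx with h | h <;> rw [h] <;> norm_num
    rw [hx2]
    by_cases h24' : (p : ℕ) ∣ 24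
    · rw [if_pos h24', if_pos (hΔ.2 (Or.inl h24'))]
      by_cases hp2 : (p : ℕ) = 2
      · rw [hp2, ap_W_two (by omega), ap_E24_two]
        simp
      · rw [ap_twist (p : ℕ) hp2 h4 hpn]
        push_cast
        ring
    · have hp2 : (p : ℕ) ≠ 2 := by
        intro h
        apply h24'
        rw [h]
        norm_num
      rw [if_neg h24', if_neg (fun h => (hΔ.1 h).elim h24' hpn), mul_one, p_cpow hp.ne_zero,
        ap_twist (p : ℕ) hp2 h4 hpn]
      push_cast
      ring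

end Pool.Agent.N877.P24
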