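import Pool.Agent.N877.P24.Defs2
import Pool.Agent.N971.MF.Symb

/-!
# Twists of `X_0(24)`, the other perfect classes: the minus symbol at the other cusps

`Pool.Agent.N971.MF.Symb24 s` are the properties of the minus modular symbol; on the cusps with
denominator prime to `6` it is `-2 Fp` (`Symb24.eq_Fp`). All the statements have been verified
numerically.
-/

set_option autoImplicit false

namespace Pool.Agent.N877.P24

open Finset
open Pool.Agent.N971.MF (Symb24)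
open Pool.Agent.N969.P15 (Qe c2 chE)

noncomputable section

/-- SYM1: the symbol on the cusps of the classes of `1 / 3` and `∞` -/
def S_SYM1 : Prop := ∀ s : ℚ → ℤ, Symb24 s → ∀ x M : ℤ, 0 < M → IsCoprime x M → (3 : ℤ) ∣ M →
  s ((x : ℚ) / M) = FC x M

/-- SYM2: the symbol on the cusps of the class of `1 / 2` with denominator divisible by `4` -/
def S_SYM2 : Prop := ∀ s : ℚ → ℤ, Symb24 s → ∀ x M j : ℤ, 0 < M → (4 : ℤ) ∣ M → ¬ (3 : ℤ) ∣ M →
  IsCoprime x M → 0 ≤ j → j < M → M ∣ 3 * j * x - 1 →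
  s ((x : ℚ) / M) = FC x M + (if M < 3 * j ∧ 3 * j < 2 * M then
    (if (2 : ℤ) ∣ (3 * j * x - 1) / M then 1 else -1) else 0)

/-- BD: the character sum of the boundary terms is zero -/
def S_BD : Prop := ∀ n : ℕ, ClE2 n → ∀ j : ℕ → ℤ, (∀ u ∈ un (4 * n), 0 ≤ j u ∧ j u < 2 * n ∧
    (2 * n : ℤ) ∣ 3 * j u * u - 1) →
  ∑ u ∈ un (4 * n), chE (4 * n) u * (if 2 * (n : ℤ) < 3 * j u ∧ 3 * j u < 2 * (2 * n) then
    (if (2 : ℤ) ∣ (3 * j u * u - 1) / (2 * n) then 1 else -1) else 0) = 0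

/-- SUMA3, SUME6, SUME2: the character sums of the symbol -/
def S_SUMC : Prop := ∀ s : ℚ → ℤ, Symb24 s →
  (∀ n : ℕ, ClA3 n → ∑ u ∈ un n, jacobiSym u n * s (2 * ((u : ℚ) / n)) =
    ∑ u ∈ un n, jacobiSym u n * FC (2 * u) n) ∧
  (∀ n : ℕ, (ClE2 n ∨ ClE6 n) → ∑ u ∈ un (4 * n), chE (4 * n) u * s (2 * ((u : ℚ) / (4 * n : ℕ))) =
    ∑ u ∈ un (4 * n), chE (4 * n) u * FC u (2 * n))

end

end Pool.Agent.N877.P24
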