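import Mathlib
import Pool.Agent.N877.P24.Defs
import Pool.Agent.N969.P15.Defs2

/-!
# Twists of `X_0(24)`, the other perfect classes: definitions and statements

`n ≡ 3 mod 24` (`D = -n`), and `n ≡ 2, 6 mod 12` (`D = -4 n`), `n` squarefree. Together with
`n ≡ 11 mod 24` (`Defs`) these are all the fundamental discriminants `D < 0`, `D ≡ 5 mod 8` or
`8 ∣ D`, such that `3` is not inert in `ℚ(√D)`. All the statements have been verified numerically.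
-/

set_option autoImplicit false

namespace Pool.Agent.N877.P24

open Finset Matrix
open Pool.Agent.Z700 (V3 vec cp hh fac chi12)
open Pool.Agent.N969.P15 (Qe c2 chE)

noncomputable section

/-! ### classes -/

/-- `D = -n`, `3 ∣ n` -/
def ClA3 (n : ℕ) : Prop := Squarefree n ∧ n % 24 = 3

/-- `D = -4 n`, `3` split -/
def ClE2 (n : ℕ) : Prop := Squarefree n ∧ n % 12 = 2

/-- `D = -4 n`, `3 ∣ n` -/
def ClE6 (n : ℕ) : Prop := Squarefree n ∧ n % 12 = 6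

/-! ### the definite side -/

/-- the sign of a vector of norm `≡ 2 mod 4` (one coordinate is even) -/
def psiE (v : V3) : ℤ := ∏ i, if (2 : ℤ) ∣ v i then 1 else chi12 (v i)

/-- the Gross sum for `n ≡ 2 mod 4` -/
def ce (n : ℤ) : ℤ := ∑ v ∈ vec n, psiE v

/-- the local densities away from `2` -/
def le (n1 D : ℕ) : ℤ := ∏ l ∈ D.primeFactors.erase 2, fac n1 D l

/-- the local densities away from `6` -/
def le3 (n1 D : ℕ) : ℤ := ∏ l ∈ (D.primeFactors.erase 2).erase 3, fac n1 D l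

/-- PCE: the number of pairs, `n1 ≡ 2 mod 4` (any `n2`, any `b`) -/
def S_PCE : Prop := ∀ (n1 n2 : ℕ) (b : ℤ) (D : ℕ), Squarefree n1 → n1 % 4 = 2 → 0 < D →
  (D : ℤ) = n1 * n2 - b ^ 2 → (cp n1 b n2 : ℤ) = 24 * le n1 D

/-- CP3E: the pairs proportional modulo `3` -/
def S_CP3E : Prop := ∀ (n1 n2 : ℕ) (b : ℤ) (D : ℕ), ClE2 n1 → n2 % 3 = 2 → ¬ (3 : ℤ) ∣ b → 0 < D →
  (D : ℤ) = n1 * n2 - b ^ 2 → (cp n1 b n2 : ℤ) - cp3 n1 b n2 = 48 * le3 n1 D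

/-- the classes of norms in the relations -/
def ClR (n : ℕ) : Prop := (n % 8 = 3 ∨ n % 4 = 2) ∧ n % 3 ≠ 1 ∧ ¬ 9 ∣ n

/-- the weight at `2` -/
def kk2 (n1 n2 : ℕ) (b : ℤ) : ℤ :=
  if n1 % 8 = 3 ∧ n2 % 8 = 3 then (if (32 : ℤ) ∣ n1 * n2 - b ^ 2 then 1 else 0)
  else if n1 % 8 = 3 ∨ n2 % 8 = 3 then (if b % 4 = 2 then 1 else 0)
  else if b % 2 = 1 then 1
  else if n1 % 8 = n2 % 8 then (if b % 4 = 2 then 2 else 0)
  else (if b % 4 = 0 then 2 else 0)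

/-- the count at `3` -/
def kk3 (n1 n2 : ℕ) (b : ℤ) : ℤ :=
  if 3 ∣ n1 ∨ 3 ∣ n2 then (if (3 : ℤ) ∣ b then (cp n1 b n2 : ℤ) else 0)
  else (if (3 : ℤ) ∣ n1 * n2 - b ^ 2 then (cp n1 b n2 : ℤ) + cp3 n1 b n2 else 0)

/-- the normalized number of vectors -/
def RN (n : ℕ) : ℤ := (if n % 8 = 3 then 1 else 2) * (if n % 3 = 0 then 1 else 2) * rr n

/-- the normalized Gross sum -/
def CN (n : ℕ) : ℤ :=
  if n % 8 = 3 then (if n % 3 = 0 then -cc n else -(2 * cc n))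
  else (if n % 8 = 2 then 1 else -1) * (if n % 3 = 0 then 2 * ce n else -(4 * ce n))

/-- REL: the relations between the Gross sums and the pairs (all classes at once) -/
def S_RELG : Prop := ∀ n1 n2 : ℕ, ClR n1 → ClR n2 → ∀ B : ℤ, (n1 : ℤ) * n2 < B ^ 2 → 0 < B →
  48 * ∑ b ∈ Ioo (-B) B, kk2 n1 n2 b * kk3 n1 n2 b = 3 * RN n1 * RN n2 + CN n1 * CN n2

/-! ### the bilinear identities -/

/-- the weight at `2` of the indefinite side, odd discriminants -/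
def w2 (D : ℕ) : ℤ := if Odd (D.factorization 2) then (if D.factorization 2 = 3 then -1 else 3) else 0

/-- the weight at `2` of the indefinite side, even discriminants -/
def w4 (T : ℕ) : ℤ := if 4 ∣ T then 1 else -1

def S_BILA3 : Prop := ∀ n : ℕ, ClA3 n →
  cc n ^ 2 = -(576 * ∑ T ∈ (range n).filter (fun T => T % 2 = 1 ∧ ¬ 3 ∣ T),
    w2 (4 * (n - T) * T) * le n (4 * (n - T) * T))

def S_BILE6 : Prop := ∀ n : ℕ, ClE6 n →
  ce n ^ 2 = -(288 * ∑ T ∈ (range (2 * n)).filter (fun T => 0 < T ∧ 2 ∣ T ∧ ¬ 3 ∣ T),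
    w4 T * le n ((2 * n - T) * T))

def S_BILE2 : Prop := ∀ n : ℕ, ClE2 n →
  ce n ^ 2 = -(144 * ∑ T ∈ (range (2 * n)).filter (fun T => 0 < T ∧ 2 ∣ T),
    w4 T * le3 n ((2 * n - T) * T))

/-! ### parity -/

/-- PARA3 -/
def S_PARA3 : Prop := ∀ n : ℕ, ClA3 n → 3 < n →
  ∃ y : ℤ, cc n = 12 * 2 ^ n.primeFactors.card * y ∧ (Odd y ↔ Qc n)

/-- RE: the parity of the number of vectors of norm `n ≡ 2 mod 4` -/
def S_RE : Prop := ∀ n : ℕ, Squarefree n → n % 4 = 2 →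
  ∃ g : ℤ, rr n = 6 * 2 ^ n.primeFactors.card * g ∧ (Odd g ↔ Qe (4 * n))

/-- PARE -/
def S_PARE : Prop := ∀ n : ℕ, (ClE2 n ∨ ClE6 n) →
  ∃ y : ℤ, ce n = 6 * 2 ^ n.primeFactors.card * y ∧ (Odd y ↔ Qe (4 * n))

/-! ### the symbol -/

/-- the forms `A x² + B x y + C y²` of discriminant `1` joining the cusp classes of `0` and `1 / 2` -/
def FmC (q : ℤ × ℤ × ℤ) : Prop := q.2.1 ^ 2 - 4 * q.1 * q.2.2 = 1 ∧ (2 : ℤ) ∣ q.1 ∧ ¬ (3 : ℤ) ∣ q.1

/-- the weight of a form: a sign for the orientation times the character -/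
def cC (q : ℤ × ℤ × ℤ) : ℤ := (if q.2.1 % 4 = 1 then 1 else -1) *
  (if (2 : ℤ) ∣ q.1 / 2 + q.2.2 then 1 else -1)

open Classical in
/-- the number of these forms changing sign between `∞` and `x / M` -/
def FC (x M : ℤ) : ℤ := ∑ᶠ q : ℤ × ℤ × ℤ,
  if FmC q ∧ 0 < q.1 ∧ q.1 * x ^ 2 + q.2.1 * x * M + q.2.2 * M ^ 2 < 0 then cC q else 0

/-- FCP: periodicity -/
def S_FCP : Prop := ∀ x M : ℤ, 0 < M → FC (x + M) M = -FC x M

/-! ### the divisor sums -/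

/-- the divisor sum for the forms `FmC`, odd discriminants -/
def WWC (n S T : ℕ) : ℤ :=
  ∑ a ∈ S.divisors.filter (fun a => 2 ∣ a ∧ ¬ 3 ∣ a), ∑ c ∈ T.divisors.filter (fun c => ¬ 3 ∣ c),
    sg a (S / a) * ∏ p ∈ n.primeFactors, psp p a c (S / a) (T / c)

/-- the divisor sum for the forms `FmC`, even discriminants -/
def WWCe (n S T : ℕ) : ℤ :=
  ∑ a ∈ S.divisors.filter (fun a => 2 ∣ a ∧ ¬ 3 ∣ a ∧ (S / a) % 2 = 1),
    ∑ c ∈ T.divisors.filter (fun c => c % 2 = 1 ∧ ¬ 3 ∣ c),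
      (if 2 ∣ a / 2 then 1 else -1) * c2 (4 * n) ((c * (S / a) : ℕ) : ℤ) *
        ∏ p ∈ n.primeFactors.erase 2, psp p a c (S / a) (T / c)

/-- the sum over the cusps and a function on the integers -/
def WXC (χ : ℤ → ℤ) (n : ℕ) : ℤ := ∑ T ∈ (range n).filter (fun T => T % 2 = 1),
  ∑ a ∈ (n - T).divisors.filter (fun a => 2 ∣ a ∧ ¬ 3 ∣ a), ∑ c ∈ T.divisors.filter (fun c => ¬ 3 ∣ c),
    sg a ((n - T) / a) *
    ∑ u ∈ (un n).filter (fun u : ℕ => (n : ℤ) ∣ 2 * (a : ℤ) * (u : ℤ) + ((T / c : ℕ) : ℤ) ∧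
      (n : ℤ) ∣ 2 * (c : ℤ) * (u : ℤ) - (((n - T) / a : ℕ) : ℤ)), χ u

/-- C1C: the forms and the cusps as factorizations (all odd functions) -/
def S_C1C : Prop := ∀ n : ℕ, 1 < n → n % 2 = 1 → ∀ χ : ℤ → ℤ, (∀ u : ℤ, χ (n - u) = -χ u) →
  ∑ u ∈ un n, χ u * FC (2 * u) n = -(2 * WXC χ n)

/-- C1CB: the character sums over the cusps, odd discriminants -/
def S_C1CB : Prop := ∀ n : ℕ, ClA3 n →
  WXC (fun u => jacobiSym u n) n = -∑ T ∈ (range n).filter (fun T => T % 2 = 1), WWC n (n - T) T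

/-- C1CE: the same for even discriminants -/
def S_C1CE : Prop := ∀ n : ℕ, Squarefree n → n % 4 = 2 →
  ∑ u ∈ un (4 * n), chE (4 * n) u * FC u (2 * n) =
    -(4 * ∑ T ∈ (range (2 * n)).filter (fun T => 0 < T ∧ 2 ∣ T), WWCe n (2 * n - T) T)

/-- C2A3 -/
def S_C2A3 : Prop := ∀ n : ℕ, ClA3 n → ∀ T : ℕ, T < n → T % 2 = 1 →
  WWC n (n - T) T = if 3 ∣ T then 0 else -(w2 (4 * (n - T) * T) * le n (4 * (n - T) * T))

/-- C2E6 -/
def S_C2E6 : Prop := ∀ n : ℕ, ClE6 n → ∀ T : ℕ, 0 < T → T < 2 * n → 2 ∣ T →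
  WWCe n (2 * n - T) T = if 3 ∣ T then 0 else w4 T * le n ((2 * n - T) * T)

/-- C2E2 -/
def S_C2E2 : Prop := ∀ n : ℕ, ClE2 n → ∀ T : ℕ, 0 < T → T < 2 * n → 2 ∣ T →
  WWCe n (2 * n - T) T = w4 T * le3 n ((2 * n - T) * T)

/-! ### the diagonal identities -/

def S_DIAGA3 : Prop := ∀ n : ℕ, ClA3 n → 288 * ∑ u ∈ un n, jacobiSym u n * FC (2 * u) n = cc n ^ 2

def S_DIAGE6 : Prop := ∀ n : ℕ, ClE6 n →
  72 * ∑ u ∈ un (4 * n), chE (4 * n) u * FC u (2 * n) = ce n ^ 2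

def S_DIAGE2 : Prop := ∀ n : ℕ, ClE2 n →
  36 * ∑ u ∈ un (4 * n), chE (4 * n) u * FC u (2 * n) = ce n ^ 2

theorem diagA3_of (h1 : S_C1C) (h2 : S_C1CB) (h3 : S_C2A3) (h4 : S_BILA3)
    (hodd : ∀ n : ℕ, n % 4 = 3 → ∀ u : ℤ, jacobiSym ((n : ℤ) - u) n = -jacobiSym u n) :
    S_DIAGA3 := by
  intro n hn
  have h24 := hn.2
  have e1 := h1 n (by omega) (by omega) (fun u => jacobiSym u n) (hodd n (by omega))
  have e2 : ∑ u ∈ un n, jacobiSym u n * FC (2 * u) n = -(2 * WXC (fun u => jacobiSym u n) n) := e1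
  rw [e2, h2 n hn, h4 n hn]
  have e3 : ∑ T ∈ (range n).filter (fun T => T % 2 = 1), WWC n (n - T) T =
      -∑ T ∈ (range n).filter (fun T => T % 2 = 1 ∧ ¬ 3 ∣ T),
        w2 (4 * (n - T) * T) * le n (4 * (n - T) * T) := by
    rw [← sum_neg_distrib, ← filter_filter, sum_filter (p := fun T => ¬ 3 ∣ T)]
    refine sum_congr rfl fun T hT => ?_
    rw [mem_filter, mem_range] at hT
    rw [h3 n hn T hT.1 hT.2]
    by_cases h : 3 ∣ T
    · rw [if_pos h, if_neg (not_not.2 h)]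
    · rw [if_neg h, if_pos h]
  rw [e3]
  ring

theorem diagE6_of (h1 : S_C1CE) (h3 : S_C2E6) (h4 : S_BILE6) : S_DIAGE6 := by
  intro n hn
  have h12 := hn.2
  rw [h1 n hn.1 (by omega), h4 n hn]
  have e3 : ∑ T ∈ (range (2 * n)).filter (fun T => 0 < T ∧ 2 ∣ T), WWCe n (2 * n - T) T =
      ∑ T ∈ (range (2 * n)).filter (fun T => 0 < T ∧ 2 ∣ T ∧ ¬ 3 ∣ T),
        w4 T * le n ((2 * n - T) * T) := by
    have e4 : (range (2 * n)).filter (fun T => 0 < T ∧ 2 ∣ T ∧ ¬ 3 ∣ T) =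
        ((range (2 * n)).filter (fun T => 0 < T ∧ 2 ∣ T)).filter (fun T => ¬ 3 ∣ T) := by
      rw [filter_filter]
      refine filter_congr fun T _ => ?_
      rw [and_assoc]
    rw [e4, sum_filter (p := fun T => ¬ 3 ∣ T)]
    refine sum_congr rfl fun T hT => ?_
    rw [mem_filter, mem_range] at hT
    rw [h3 n hn T hT.2.1 hT.1 hT.2.2]
    by_cases h : 3 ∣ T
    · rw [if_pos h, if_neg (not_not.2 h)]
    · rw [if_neg h, if_pos h]
  rw [e3]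
  ring

theorem diagE2_of (h1 : S_C1CE) (h3 : S_C2E2) (h4 : S_BILE2) : S_DIAGE2 := by
  intro n hn
  have h12 := hn.2
  rw [h1 n hn.1 (by omega), h4 n hn]
  have e3 : ∑ T ∈ (range (2 * n)).filter (fun T => 0 < T ∧ 2 ∣ T), WWCe n (2 * n - T) T =
      ∑ T ∈ (range (2 * n)).filter (fun T => 0 < T ∧ 2 ∣ T), w4 T * le3 n ((2 * n - T) * T) := by
    refine sum_congr rfl fun T hT => ?_
    rw [mem_filter, mem_range] at hT
    rw [h3 n hn T hT.2.1 hT.1 hT.2.2]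
  rw [e3]
  ring

end

end Pool.Agent.N877.P24
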