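import Pool.Agent.N877.P24.Rel
import Pool.Agent.N877.P24.AA
import Pool.Agent.N877.TF.Amb
import Pool.Agent.Y288.Z7.Tors
import Pool.Agent.N855.P15.AA5

/-!
# The number of vectors of `ℤ³` and the number of forms in one genus
-/

set_option autoImplicit false

namespace Pool.Agent.N877.P24

open Finset Pool.Agent.N877.TF Matrix

/-- the standard form -/
def S1 : Co := ⟨1, 1, 1, 0, 0, 0⟩

theorem B1 (v w : V) : S1.B v w = v 0 * w 0 + v 1 * w 1 + v 2 * w 2 := by
  simp only [Co.B, S1]; ring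

theorem d1 : S1.d = 1 := by simp [Co.d, S1]

theorem nm1 (v : V) : S1.nm v = v 0 ^ 2 + v 1 ^ 2 + v 2 ^ 2 := by
  simp only [Co.nm, S1]; ring

theorem pos1 : S1.Pos := by
  intro v hv
  rw [B1]
  have a0 := mul_self_nonneg (v 0)
  have a1 := mul_self_nonneg (v 1)
  have a2 := mul_self_nonneg (v 2)
  by_contra h
  have e0 : v 0 * v 0 = 0 := by linarith
  have e1 : v 1 * v 1 = 0 := by linarith
  have e2 : v 2 * v 2 = 0 := by linarith
  apply hv
  funext i
  fin_cases i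
  · exact mul_self_eq_zero.1 e0
  · exact mul_self_eq_zero.1 e1
  · exact mul_self_eq_zero.1 e2

/-- the symmetric matrix -/
def sm (a b c p q r : ℤ) : Matrix (Fin 3) (Fin 3) ℤ := !![a, b, p; b, c, q; p, q, r]

theorem sm_symm (a b c p q r : ℤ) : (sm a b c p q r)ᵀ = sm a b c p q r := by
  ext i j
  fin_cases i <;> fin_cases j <;> rfl

theorem tors1 : S1.Tors 24 := by
  intro a b c p q r ha hD hodd hdet
  rw [d1] at hdet
  set M := sm (2 * a) b (2 * c) p q r with hM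
  have hPos : Pool.Agent.Z700.PosM M := by
    refine ⟨sm_symm _ _ _ _ _ _, by show 0 < 2 * a; linarith, ?_, ?_⟩
    · show 0 < 2 * a * (2 * c) - b ^ 2
      linarith
    · rw [hM, sm, det_fin_three]
      show 2 * a * (2 * c) * r - 2 * a * q * q - b * b * r + b * q * p + p * b * q - p * (2 * c) * p = 1
      linear_combination hdet
  have h := Pool.Agent.Y288.Z7.t_TORS M hPos
  rw [← h]
  refine Nat.card_congr ?_
  have hdt : ∀ v w : V, Pool.Agent.Y288.Z7.dt v w = S1.B v w := fun v w => by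
    rw [B1]; rfl
  have hdd : ∀ v w z : V, Pool.Agent.Y288.Z7.dd3 v w z = dt (crs v w) z := fun v w z => by
    simp only [Pool.Agent.Y288.Z7.dd3, dt, crs]
    simp
    ring
  refine ⟨fun t => ⟨Pool.Agent.Y288.Z7.cols t.1.1 t.1.2.1 t.1.2.2, ?_⟩,
    fun A => ⟨(fun i => A.1 i 0, fun i => A.1 i 1, fun i => A.1 i 2), ?_⟩, ?_, ?_⟩
  · obtain ⟨⟨v, w, z⟩, h1, h2, h3, h4, h5, h6, h7⟩ := t
    refine ⟨(Pool.Agent.Y288.Z7.gram_iff v w z M (sm_symm _ _ _ _ _ _)).2 ?_, ?_⟩
    · simp only [hdt]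
      exact ⟨h2, h3, h5, h4, h6, h7⟩
    · rw [Pool.Agent.Y288.Z7.det_cols, hdd]
      exact h1
  · obtain ⟨A, hA, hAd⟩ := A
    rw [Pool.Agent.Y288.Z7.cols_eq A] at hA hAd
    rw [Pool.Agent.Y288.Z7.gram_iff _ _ _ M (sm_symm _ _ _ _ _ _)] at hA
    rw [Pool.Agent.Y288.Z7.det_cols, hdd] at hAd
    simp only [hdt] at hA
    exact ⟨hAd, hA.1, hA.2.1, hA.2.2.2.1, hA.2.2.1, hA.2.2.2.2.1, hA.2.2.2.2.2⟩
  · rintro ⟨⟨v, w, z⟩, h1⟩
    rfl
  · rintro ⟨A, hA⟩
    exact Subtype.ext (Pool.Agent.Y288.Z7.cols_eq A).symm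

theorem even1 {n : ℕ} (h8 : n % 8 = 3) {v u : V} (hv : S1.nm v = n) (hu : dt v u = 0) :
    Even (S1.B u u) := by
  rw [nm1] at hv
  have hm : v ∈ Pool.Agent.Z700.vec (n : ℤ) := by rw [mem_vec, ← hv]; ring
  obtain ⟨o0, o1, o2⟩ := odd_vec (by omega) hm
  rw [dt] at hu
  rw [B1, Int.even_iff]
  obtain ⟨a, ha⟩ : ∃ a, v 0 = 2 * a + 1 := ⟨v 0 / 2, by omega⟩
  obtain ⟨b, hb⟩ : ∃ a, v 1 = 2 * a + 1 := ⟨v 1 / 2, by omega⟩
  obtain ⟨c, hc⟩ : ∃ a, v 2 = 2 * a + 1 := ⟨v 2 / 2, by omega⟩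
  rw [ha, hb, hc] at hu
  have h1 : (u 0 + u 1 + u 2) % 2 = 0 := by
    have : u 0 + u 1 + u 2 = 2 * (-(a * u 0) - b * u 1 - c * u 2) := by linear_combination hu
    omega
  have hs : ∀ x : ℤ, x * x % 2 = x % 2 := by
    intro x
    rcases Int.emod_two_eq_zero_or_one x with h | h
    · rw [Int.mul_emod, h]; rfl
    · rw [Int.mul_emod, h]; rfl
  have s0 := hs (u 0)
  have s1 := hs (u 1)
  have s2 := hs (u 2)
  omega

theorem jac2 {n : ℕ} (h8 : n % 8 = 3) : jacobiSym (-2) n = 1 := by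
  have hodd : Odd n := by rw [Nat.odd_iff]; omega
  have e : (-2 : ℤ) = -1 * 2 := by norm_num
  rw [e, jacobiSym.mul_left, jacobiSym.at_neg_one hodd, ZMod.χ₄_nat_three_mod_four (by omega),
    jacobiSym.at_two hodd]
  have : ZMod.χ₈ (n : ZMod 8) = -1 := by
    have h : (n : ZMod 8) = 3 := by
      have := (ZMod.natCast_eq_natCast_iff' n 3 8).2 (by omega)
      simpa using this
    rw [h]
    decide +kernel
  rw [this]
  norm_num

theorem AF_eq (n : ℕ) : AF n 1 = AAf n (-2) := by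
  unfold AF AAf
  refine Finset.filter_congr fun r _ => ?_
  refine and_congr_right fun _ => and_congr ?_ ?_
  · refine forall₂_congr fun p _ => ?_
    rw [show -(2 * 1 * ((n / r : ℕ) : ℤ)) = -2 * ((n / r : ℕ) : ℤ) by ring]
  · refine forall₂_congr fun p _ => ?_
    rw [show -(2 * 1 * (r : ℤ)) = -2 * (r : ℤ) by ring]

/-- **R** -/
theorem t_R : S_R := by
  intro n hsq h8 h3
  have hodd : Odd n := Nat.odd_iff.2 (by omega)
  have hcop : IsCoprime S1.d (n : ℤ) := by rw [d1]; exact isCoprime_one_left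
  refine ⟨((Rd n).filter fun g => Gc n 1 g).card, ?_, ?_⟩
  · have h := card_vec S1 pos1 tors1 (by norm_num) (by rw [d1]; norm_num) hsq hodd
      (by omega) hcop (VV := Pool.Agent.Z700.vec (n : ℤ)) (fun v => by
        rw [mem_vec, nm1]
        constructor
        · intro h; rw [← h]; ring
        · intro h; rw [← h]; ring) (fun v hv u hu => even1 h8 hv hu)
    rw [d1] at h
    have h' : (2 : ℤ) * (Pool.Agent.Z700.vec (n : ℤ)).card = 2 * (12 * 2 ^ n.primeFactors.card *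
        ((Rd n).filter fun g => Gc n 1 g).card) := by
      have : ((2 * (Pool.Agent.Z700.vec (n : ℤ)).card : ℕ) : ℤ) = ((24 * 2 ^ n.primeFactors.card *
        ((Rd n).filter fun g => Gc n 1 g).card : ℕ) : ℤ) := by rw [h]
      push_cast at this
      rw [this]; ring
    exact mul_left_cancel₀ two_ne_zero h'
  · have hg : ∀ p ∈ n.primeFactors, (-2 : ℤ).gcd (p : ℤ) = 1 := by
      intro p hp
      have hpp := Nat.prime_of_mem_primeFactors hp
      change Nat.gcd 2 p = 1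
      refine (Nat.coprime_primes Nat.prime_two hpp).2 ?_
      rintro rfl
      have := Nat.dvd_of_mem_primeFactors hp
      omega
    have hQ : Qc n ↔ Pool.Agent.N855.P15.Qj n := Pool.Agent.N855.P15.Qc_iff hsq.ne_zero
    rw [hQ, ← aaf hsq (by omega) (-2) hg (jac2 h8), ← AF_eq, ← card_amb hsq (by omega) (by omega),
      ← card_parity hodd]
    exact Int.odd_coe_nat _

end Pool.Agent.N877.P24
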