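import Pool.Agent.N877.P24.Diag
import Pool.Agent.N877.P24.Defs2

/-!
# S_C1CB: the character sums over the cusps, `n ≡ 3 mod 24`
-/

set_option autoImplicit false

namespace Pool.Agent.N877.P24

open Finset

lemma mem_un' {n u : ℕ} : u ∈ un n ↔ u < n ∧ Nat.Coprime u n := by
  unfold un
  rw [mem_filter, mem_range]

lemma shift2 {n : ℕ} (h8 : n % 8 = 3) (a c X Y : ℤ) :
    ∑ u ∈ (un n).filter (fun u : ℕ => (n : ℤ) ∣ 2 * a * (u : ℤ) + X ∧ (n : ℤ) ∣ 2 * c * (u : ℤ) - Y),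
      jacobiSym u n =
    -∑ u ∈ (un n).filter (fun u : ℕ => (n : ℤ) ∣ a * (u : ℤ) + X ∧ (n : ℤ) ∣ c * (u : ℤ) - Y),
      jacobiSym u n := by
  have hodd : Odd n := Nat.odd_iff.2 (by omega)
  have hc2 : Nat.Coprime 2 n := Nat.coprime_two_left.2 hodd
  rw [← sum_neg_distrib]
  have key : ∀ u : ℕ, ∃ k : ℤ, ((2 * u % n : ℕ) : ℤ) = 2 * u - n * k := fun u => by
    refine ⟨((2 * u / n : ℕ) : ℤ), ?_⟩
    have := Nat.mod_add_div (2 * u) n
    have h : ((2 * u % n : ℕ) : ℤ) + n * ((2 * u / n : ℕ) : ℤ) = 2 * u := by exact_mod_cast this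
    linarith
  refine sum_nbij (fun u => 2 * u % n) ?_ ?_ ?_ ?_
  · intro u hu
    rw [mem_filter, mem_un'] at hu ⊢
    obtain ⟨⟨h1, h2⟩, h3, h4⟩ := hu
    obtain ⟨k, hk⟩ := key u
    refine ⟨⟨Nat.mod_lt _ (by omega), ?_⟩, ?_, ?_⟩
    · have : Nat.Coprime (2 * u) n := Nat.Coprime.mul_left hc2 h2
      unfold Nat.Coprime at this ⊢
      rw [← Nat.gcd_rec, Nat.gcd_comm]
      exact this
    · rw [hk]
      have : a * (2 * (u : ℤ) - n * k) + X = (2 * a * u + X) - n * (a * k) := by ring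
      rw [this]
      exact dvd_sub h3 (dvd_mul_right _ _)
    · rw [hk]
      have : c * (2 * (u : ℤ) - n * k) - Y = (2 * c * u - Y) - n * (c * k) := by ring
      rw [this]
      exact dvd_sub h4 (dvd_mul_right _ _)
  · intro u hu v hv huv
    rw [mem_coe, mem_filter, mem_un'] at hu hv
    have h1 : 2 * u ≡ 2 * v [MOD n] := huv
    have h2 : u ≡ v [MOD n] := Nat.ModEq.cancel_left_of_coprime (by
      rw [Nat.gcd_comm]; exact hc2) h1
    exact Nat.ModEq.eq_of_lt_of_lt h2 hu.1.1 hv.1.1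
  · intro u hu
    rw [mem_coe, mem_filter, mem_un'] at hu
    obtain ⟨⟨h1, h2⟩, h3, h4⟩ := hu
    -- the preimage
    obtain ⟨w, hw1, hw2⟩ : ∃ w : ℕ, w < n ∧ (2 * w = u ∨ 2 * w = u + n) := by
      rcases Nat.even_or_odd u with ⟨k, hk⟩ | ⟨k, hk⟩
      · exact ⟨k, by omega, Or.inl (by omega)⟩
      · obtain ⟨j, hj⟩ := hodd
        exact ⟨k + j + 1, by omega, Or.inr (by omega)⟩
    have hm : 2 * w % n = u := by
      rcases hw2 with h | h
      · rw [h, Nat.mod_eq_of_lt h1]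
      · rw [h, Nat.add_mod_right, Nat.mod_eq_of_lt h1]
    obtain ⟨k, hk⟩ := key w
    rw [hm] at hk
    refine ⟨w, ?_, hm⟩
    rw [mem_coe, mem_filter, mem_un']
    refine ⟨⟨hw1, ?_⟩, ?_, ?_⟩
    · have h5 : Nat.Coprime (2 * w) n := by
        unfold Nat.Coprime
        rw [Nat.gcd_comm, Nat.gcd_rec, hm]
        exact h2
      exact Nat.Coprime.coprime_mul_left h5
    · have : 2 * a * (w : ℤ) + X = (a * u + X) + n * (a * k) := by rw [hk]; ring
      rw [this]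
      exact dvd_add h3 (dvd_mul_right _ _)
    · have : 2 * c * (w : ℤ) - Y = (c * u - Y) + n * (c * k) := by rw [hk]; ring
      rw [this]
      exact dvd_add h4 (dvd_mul_right _ _)
  · intro u hu
    obtain ⟨k, hk⟩ := key u
    have h1 : jacobiSym ((2 * u % n : ℕ) : ℤ) n = jacobiSym (2 * u) n := by
      rw [jacobiSym.mod_left, jacobiSym.mod_left (2 * (u : ℤ)) n, hk]
      congr 1
      rw [sub_eq_add_neg, ← mul_neg, Int.add_mul_emod_self_left]
    have h2 : jacobiSym 2 n = -1 := by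
      rw [jacobiSym.at_two hodd, ZMod.χ₈_nat_eq_if_mod_eight]
      simp [h8, show n % 2 = 1 by omega]
    show jacobiSym u n = -jacobiSym ((2 * u % n : ℕ) : ℤ) n
    rw [h1, jacobiSym.mul_left, h2]
    ring

theorem t_C1CB : S_C1CB := by
  intro n hn
  have h24 := hn.2
  have h8 : n % 8 = 3 := by omega
  unfold WXC WWC
  rw [← sum_neg_distrib]
  refine sum_congr rfl fun T hT => ?_
  rw [mem_filter, mem_range] at hT
  rw [← sum_neg_distrib]
  refine sum_congr rfl fun a ha => ?_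
  rw [← sum_neg_distrib]
  refine sum_congr rfl fun c hc => ?_
  rw [mem_filter, Nat.mem_divisors] at ha hc
  have h1 := shift2 (n := n) h8 (a : ℤ) (c : ℤ) ((T / c : ℕ) : ℤ) (((n - T) / a : ℕ) : ℤ)
  have h2 := t_C1B n hn.1 (by omega) a c (T / c) ((n - T) / a) (by
    rw [Nat.mul_div_cancel' ha.1.1, Nat.mul_div_cancel' hc.1.1]
    omega)
  rw [h2] at h1
  rw [h1]
  ring

end Pool.Agent.N877.P24
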