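import Pool.Agent.N877.P24.Rel2

/-!
# P24: the bilinear identity
-/

set_option autoImplicit false

namespace Pool.Agent.N877.P24

open Finset Matrix
open Pool.Agent.Z700 (V3 vec cp hh fac chi12)

theorem v2_eq {D : ℕ} (hD : 0 < D) (h8 : 8 ∣ D) : D.factorization 2 = 3 ∨
    (D.factorization 2 = 4 ∧ ¬ 32 ∣ D) ∨ (5 ≤ D.factorization 2 ∧ 32 ∣ D) := by
  have h1 : ∀ k : ℕ, 2 ^ k ∣ D ↔ k ≤ D.factorization 2 := fun k =>
    (Nat.Prime.pow_dvd_iff_le_factorization Nat.prime_two hD.ne')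
  have h3 := (h1 3).1 (by simpa using h8)
  have h5 : 32 ∣ D ↔ 5 ≤ D.factorization 2 := by simpa using h1 5
  rw [h5]
  omega

theorem k2_loc3 {n1 D : ℕ} (hD : 0 < D) (h8 : 8 ∣ D) :
    k2 D * loc3 n1 D = 4 * (if 32 ∣ D then loc3 n1 D else 0) - loc3 n1 D := by
  unfold k2
  rcases v2_eq hD h8 with h | ⟨h, h'⟩ | ⟨h, h'⟩
  · have : ¬ 32 ∣ D := by
      intro h2
      have := (Nat.Prime.pow_dvd_iff_le_factorization Nat.prime_two hD.ne' (k := 5)).1
        (by simpa using h2)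
      omega
    rw [if_pos h, if_neg this]
    ring
  · have : loc3 n1 D = 0 := by
      unfold loc3
      rw [if_neg (by rw [h]; decide)]
    rw [this]
    simp
  · rw [if_neg (by omega), if_pos h']
    ring

/-- **BIL** -/
theorem t_BIL (hcp : S_CP3) : S_BIL := by
  intro n ⟨hsq, hn⟩
  have hn0 : 0 < n := by omega
  have hB : (n : ℤ) * n < ((n : ℤ) + 1) ^ 2 := by nlinarith
  have hB0 : (0 : ℤ) < (n : ℤ) + 1 := by positivity
  have r1 := t_REL22 n n hn hn 1 3 (Or.inl rfl) (Or.inr rfl) (n + 1) hB hB0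
  have r2 := t_FULL22 n n hn hn 1 3 (Or.inl rfl) (Or.inr rfl) (n + 1) hB hB0
  set I := (Ioo (-((n : ℤ) + 1)) ((n : ℤ) + 1)).filter (fun b : ℤ => b % 3 = 1 ∧ b % 4 = 3) with hI
  have hfil : (Ioo (-((n : ℤ) + 1)) ((n : ℤ) + 1)).filter
      (fun b : ℤ => b % 3 = 1 ∧ b % 4 = 3 ∧ (32 : ℤ) ∣ n * n - b ^ 2) =
      I.filter fun b => (32 : ℤ) ∣ n * n - b ^ 2 := by
    rw [hI, Finset.filter_filter]
    refine Finset.filter_congr fun b _ => ?_
    tauto
  -- the discriminant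
  have hD : ∀ b ∈ I, 0 < (n : ℤ) * n - b ^ 2 ∧ (8 : ℤ) ∣ n * n - b ^ 2 ∧ Odd b ∧
      ¬ (3 : ℤ) ∣ b := by
    intro b hb
    rw [hI, Finset.mem_filter, Finset.mem_Ioo] at hb
    obtain ⟨⟨h1, h2⟩, h3, h4⟩ := hb
    have h5 : -(n : ℤ) < b := by
      rcases eq_or_ne b (-(n : ℤ)) with h | h
      · omega
      · omega
    have h6 : b < n := by
      rcases eq_or_ne b (n : ℤ) with h | h
      · omega
      · omega
    refine ⟨by nlinarith, ?_, by rw [Int.odd_iff]; omega, by omega⟩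
    have e : (n : ℤ) * n - b ^ 2 = (n - b) * (n + b) := by ring
    obtain ⟨u, hu⟩ : (4 : ℤ) ∣ n - b := by omega
    obtain ⟨w, hw⟩ : (2 : ℤ) ∣ n + b := by omega
    rw [e, hu, hw]
    exact ⟨u * w, by ring⟩
  have key : ∀ b ∈ I, ((cp n b n : ℤ) + cp3 n b n) = 48 * loc3 n ((n : ℤ) * n - b ^ 2).toNat := by
    intro b hb
    obtain ⟨h1, -, h3, h4⟩ := hD b hb
    exact hcp n n b _ hsq hn hn h3 h4 (by omega) (Int.toNat_of_nonneg h1.le)
  have e1 : ∑ b ∈ I, k2 ((n : ℤ) * n - b ^ 2).toNat * loc3 n ((n : ℤ) * n - b ^ 2).toNat =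
      4 * ∑ b ∈ I.filter (fun b => (32 : ℤ) ∣ n * n - b ^ 2), loc3 n ((n : ℤ) * n - b ^ 2).toNat -
      ∑ b ∈ I, loc3 n ((n : ℤ) * n - b ^ 2).toNat := by
    have e0 : ∑ b ∈ I.filter (fun b => (32 : ℤ) ∣ n * n - b ^ 2), loc3 n ((n : ℤ) * n - b ^ 2).toNat =
        ∑ b ∈ I, if (32 : ℤ) ∣ n * n - b ^ 2 then loc3 n ((n : ℤ) * n - b ^ 2).toNat else 0 :=
      Finset.sum_filter _ _
    rw [e0, Finset.mul_sum, ← Finset.sum_sub_distrib]
    refine Finset.sum_congr rfl fun b hb => ?_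
    obtain ⟨h1, h2, -, -⟩ := hD b hb
    have h8 : 8 ∣ ((n : ℤ) * n - b ^ 2).toNat := by
      zify
      rw [Int.toNat_of_nonneg h1.le]
      exact h2
    rw [k2_loc3 (by omega) h8]
    have h32 : 32 ∣ ((n : ℤ) * n - b ^ 2).toNat ↔ (32 : ℤ) ∣ n * n - b ^ 2 := by
      zify
      rw [Int.toNat_of_nonneg h1.le]
    by_cases h : (32 : ℤ) ∣ n * n - b ^ 2
    · rw [if_pos h, if_pos (h32.2 h)]
    · rw [if_neg h, if_neg (fun h' => h (h32.1 h'))]
  rw [hfil, Finset.sum_congr rfl (fun b hb => key b (Finset.mem_filter.1 hb).1),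
    ← Finset.mul_sum] at r1
  rw [Finset.sum_congr rfl key, ← Finset.mul_sum] at r2
  have e2 : AA n = ∑ b ∈ I, k2 ((n : ℤ) * n - b ^ 2).toNat * loc3 n ((n : ℤ) * n - b ^ 2).toNat := by
    unfold AA
    refine Finset.sum_nbij' (fun T => 2 * (T : ℤ) - n) (fun b => ((b + n) / 2).toNat) ?_ ?_ ?_ ?_ ?_
    · intro T hT
      rw [Finset.mem_filter, Finset.mem_range] at hT
      rw [hI, Finset.mem_filter, Finset.mem_Ioo]
      refine ⟨⟨by omega, by omega⟩, by omega, by omega⟩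
    · intro b hb
      rw [hI, Finset.mem_filter, Finset.mem_Ioo] at hb
      rw [Finset.mem_filter, Finset.mem_range]
      omega
    · intro T hT
      rw [Finset.mem_filter, Finset.mem_range] at hT
      omega
    · intro b hb
      rw [hI, Finset.mem_filter, Finset.mem_Ioo] at hb
      omega
    · intro T hT
      rw [Finset.mem_filter, Finset.mem_range] at hT
      have e3 : ((n : ℤ) * n - (2 * (T : ℤ) - n) ^ 2).toNat = 4 * (n - T) * T := by
        have : (n : ℤ) * n - (2 * (T : ℤ) - n) ^ 2 = ((4 * (n - T) * T : ℕ) : ℤ) := by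
          rw [Nat.cast_mul, Nat.cast_mul, Nat.cast_sub (by omega)]
          push_cast
          ring
        rw [this, Int.toNat_natCast]
      rw [e3]
  rw [e2, e1]
  linarith

end Pool.Agent.N877.P24
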