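import Pool.Agent.N877.P24.LV
import Pool.Agent.N877.P24.Tor
import Pool.Agent.N877.P24.Defs3
import Pool.Agent.N877.P24.C1CB
import Pool.Agent.N878.P24.Par
import Pool.Agent.N9.P24x.BilA
import Pool.Agent.N9.P24x.BilE
import Pool.Agent.N9.P24x.T
import Pool.Agent.N42.P24x.ParA3
import Pool.Agent.N42.P24x.ParE
import Pool.Agent.N42.P24x.CP3E
import Pool.Agent.N218.P24.C1
import Pool.Agent.N218.P24.C1E
import Pool.Agent.N878.P24x.PCE
import Pool.Agent.N490.P24.SymF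
import Pool.Agent.N579.P24.C2A3
import Pool.Agent.N579.P24.C2EE
import Pool.Agent.N402.P24L.Val
import Pool.Agent.N373.P24x.Main
import Pool.Agent.N373.P24x.Even
import Pool.Agent.N373.P24x.Forms

/-!
# The central values and the criterion for all the perfect classes of twists of `X_0(24)`
-/

set_option autoImplicit false
set_option linter.style.haveILetI false

namespace Pool.Agent.N877.P24.All

open Finset
open Pool.Agent.N877.P24
open Pool.Agent.N971.MF (W cubic)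
open Pool.Agent.N969.P15 (Qe)

lemma jac_odd (n : ℕ) (h : n % 4 = 3) (u : ℤ) : jacobiSym ((n : ℤ) - u) n = -jacobiSym u n := by
  have e : ((n : ℤ) - u) % (n : ℤ) = (-u) % (n : ℤ) := by
    rw [sub_eq_add_neg, Int.add_emod_left]
  rw [jacobiSym.mod_left, e, ← jacobiSym.mod_left, jacobiSym.neg _ (Nat.odd_iff.2 (by omega)),
    ZMod.χ₄_nat_three_mod_four h]
  ring

theorem t_DIAGA3 : S_DIAGA3 :=
  diagA3_of Pool.Agent.N218.P24.t_C1C t_C1CB Pool.Agent.N579.P24.t_C2A3 Pool.Agent.N9.P24x.t_BILA3 jac_odd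

theorem t_DIAGE6 : S_DIAGE6 :=
  diagE6_of Pool.Agent.N218.P24.t_C1CE Pool.Agent.N579.P24.t_C2E6
    (Pool.Agent.N9.P24x.t_BILE6 Pool.Agent.N878.P24x.t_PCE)

theorem t_DIAGE2 : S_DIAGE2 :=
  diagE2_of Pool.Agent.N218.P24.t_C1CE Pool.Agent.N579.P24.t_C2E2
    (Pool.Agent.N9.P24x.t_BILE2 Pool.Agent.N878.P24x.t_PCE
      (Pool.Agent.N42.P24x.t_CP3E Pool.Agent.N878.P24x.t_PCE))

theorem t_PARE : S_PARE := Pool.Agent.N42.P24x.t_PARE Pool.Agent.N9.P24x.t_RELG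
  Pool.Agent.N878.P24x.t_PCE (Pool.Agent.N42.P24x.t_CP3E Pool.Agent.N878.P24x.t_PCE)

/-- the value of the `L`-function of the twist by `-n` at `s = 1` is `c` times the period -/
def Val (n : ℕ) (c : ℝ) : Prop :=
  ∃ f : ℂ → ℂ, Differentiable ℂ f ∧
    (∀ s : ℂ, 2 < s.re → f s = ((W n).map (Int.castRingHom ℚ)).LSeries s) ∧
    f 1 = ((c * (2 * ∫ x in {x : ℝ | 0 < cubic (W n) x}, 1 / √(cubic (W n) x)) : ℝ) : ℂ) ∧
    (0 < ∫ x in {x : ℝ | 0 < cubic (W n) x}, 1 / √(cubic (W n) x))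

/-- the product of the Tamagawa numbers -/
def Tm (n : ℕ) : ℕ := (if 2 ∣ n then 1 else 2) * (if 3 ∣ n then 1 else 2) * 4 ^ n.primeFactors.card

/-- the criterion -/
def QQ (n : ℕ) : Prop := (n % 2 = 1 → Qc n) ∧ (n % 2 = 0 → Qe (4 * n))

lemma qc_three : Qc 3 := by
  intro b c hbc _ _
  have hb : b ∣ 3 := ⟨c, hbc.symm⟩
  rcases (Nat.dvd_prime Nat.prime_three).1 hb with h | h
  · exact Or.inl h
  · subst h
    right
    omega

set_option maxRecDepth 100000 in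
lemma cc_three : cc 3 = -24 := by
  decide +kernel

lemma sq4 (k : ℕ) : (4 : ℝ) ^ k = (2 ^ k) ^ 2 := by
  rw [← pow_mul, mul_comm, pow_mul]
  norm_num

theorem val_odd {n : ℕ} (hn : Squarefree n) (h8 : n % 8 = 3) (h3 : n % 3 ≠ 1) :
    ∃ y : ℤ, Val n ((y : ℝ) ^ 2 * Tm n / 16) ∧ (Odd y ↔ QQ n) := by
  have hq : QQ n ↔ Qc n := ⟨fun h => h.1 (by omega), fun h => ⟨fun _ => h, fun h0 => by omega⟩⟩
  rw [hq]
  have h2 : ¬ 2 ∣ n := by omega
  rcases (by omega : n % 3 = 2 ∨ n % 3 = 0) with h | h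
  · have h24 : n % 24 = 11 := by omega
    obtain ⟨f, k1, k2, k3, k4, -⟩ := value24 hn h24
    obtain ⟨g, hg1, hg2⟩ := Pool.Agent.N878.P24.t_PAR t_R n ⟨hn, h24⟩
    refine ⟨g, ⟨f, k1, k2, ?_, k4⟩, hg2⟩
    rw [k3, hg1]
    congr 2
    unfold Tm
    rw [if_neg h2, if_neg (by omega)]
    push_cast
    rw [sq4]
    ring
  · have h24 : n % 24 = 3 := by omega
    have hA : ClA3 n := ⟨hn, h24⟩
    obtain ⟨f, k1, k2, k3, k4, -⟩ := Pool.Agent.N402.P24L.valueA3 t_DIAGA3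
      Pool.Agent.N490.P24.t_SUMC hA
    have hp : ∃ y : ℤ, cc n = 12 * 2 ^ n.primeFactors.card * y ∧ (Odd y ↔ Qc n) := by
      by_cases h0 : n = 3
      · subst h0
        refine ⟨-1, ?_, ⟨fun _ => qc_three, fun _ => odd_neg_one⟩⟩
        rw [Nat.Prime.primeFactors Nat.prime_three, Finset.card_singleton]
        exact cc_three
      · exact Pool.Agent.N42.P24x.t_PARA3 n hA (by omega)
    obtain ⟨g, hg1, hg2⟩ := hp
    refine ⟨g, ⟨f, k1, k2, ?_, k4⟩, hg2⟩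
    rw [k3, hg1]
    congr 2
    unfold Tm
    rw [if_neg h2, if_pos (by omega)]
    push_cast
    rw [sq4]
    ring

theorem val_even {n : ℕ} (hn : Squarefree n) (h4 : n % 4 = 2) (h3 : n % 3 ≠ 1) :
    ∃ y : ℤ, Val n ((y : ℝ) ^ 2 * Tm n / 16) ∧ (Odd y ↔ QQ n) := by
  have hq : QQ n ↔ Qe (4 * n) := ⟨fun h => h.2 (by omega), fun h => ⟨fun h0 => by omega, fun _ => h⟩⟩
  rw [hq]
  have h2 : 2 ∣ n := by omega
  rcases (by omega : n % 3 = 2 ∨ n % 3 = 0) with h | h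
  · have hE : ClE2 n := ⟨hn, by omega⟩
    obtain ⟨f, k1, k2, k3, k4, -⟩ := Pool.Agent.N402.P24L.valueE2 t_DIAGE2
      Pool.Agent.N490.P24.t_SUMC hE
    obtain ⟨g, hg1, hg2⟩ := t_PARE n (Or.inl hE)
    refine ⟨g, ⟨f, k1, k2, ?_, k4⟩, hg2⟩
    rw [k3, hg1]
    congr 2
    unfold Tm
    rw [if_pos h2, if_neg (by omega)]
    push_cast
    rw [sq4]
    ring
  · have hE : ClE6 n := ⟨hn, by omega⟩
    obtain ⟨f, k1, k2, k3, k4, -⟩ := Pool.Agent.N402.P24L.valueE6 t_DIAGE6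
      Pool.Agent.N490.P24.t_SUMC hE
    obtain ⟨g, hg1, hg2⟩ := t_PARE n (Or.inr hE)
    refine ⟨g, ⟨f, k1, k2, ?_, k4⟩, hg2⟩
    rw [k3, hg1]
    congr 2
    unfold Tm
    rw [if_pos h2, if_pos (by omega)]
    push_cast
    rw [sq4]
    ring

theorem val_all {n : ℕ} (hn : Squarefree n) (hc : n % 8 = 3 ∨ n % 4 = 2)
    (h3 : n % 3 ≠ 1) : ∃ y : ℤ, Val n ((y : ℝ) ^ 2 * Tm n / 16) ∧ (Odd y ↔ QQ n) := by
  rcases hc with h | h
  · exact val_odd hn h h3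
  · exact val_even hn h h3

/-- the criterion for the group of points and the Tate-Shafarevich group -/
theorem crit_all {n : ℕ} (hn : Squarefree n) (hc : n % 8 = 3 ∨ n % 4 = 2) (h3 : n % 3 ≠ 1) :
    (Finite (Pool.Agent.N373.P24.EQm (-(n : ℤ))).toAffine.Point ∧
      ∀ x : Pool.Agent.TH841.SH.D.Sha (Pool.Agent.N373.P24.EQm (-(n : ℤ))), x + x = 0 → x = 0) ↔
    QQ n := by
  rcases hc with h | h
  · have hq : QQ n ↔ Qc n := ⟨fun h => h.1 (by omega), fun h => ⟨fun _ => h, fun h0 => by omega⟩⟩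
    rw [hq]
    rcases (by omega : n % 3 = 2 ∨ n % 3 = 0) with h' | h'
    · exact Pool.Agent.N373.P24.crit_iff24 hn (by omega)
    · exact Pool.Agent.N373.P24x.crit_iffA3 hn (by omega)
  · have hq : QQ n ↔ Qe (4 * n) :=
      ⟨fun h => h.2 (by omega), fun h => ⟨fun h0 => by omega, fun _ => h⟩⟩
    rw [hq]
    exact Pool.Agent.N373.P24x.crit_iffE hn h (by omega)

theorem sha_all {n : ℕ} (hn : Squarefree n) (hc : n % 8 = 3 ∨ n % 4 = 2) (h3 : n % 3 ≠ 1)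
    (hQ : QQ n) (k : ℕ) (x : Pool.Agent.TH841.SH.D.Sha (Pool.Agent.N373.P24.EQm (-(n : ℤ))))
    (hx : (2 ^ k : ℕ) • x = 0) : x = 0 := by
  rcases hc with h | h
  · rcases (by omega : n % 3 = 2 ∨ n % 3 = 0) with h' | h'
    · exact Pool.Agent.N373.P24.sha_pow24 hn (by omega) (hQ.1 (by omega)) k x hx
    · exact Pool.Agent.N373.P24x.sha_powA3 hn (by omega) (hQ.1 (by omega)) k x hx
  · exact Pool.Agent.N373.P24x.sha_powE hn h (by omega) (hQ.2 (by omega)) k x hx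

end Pool.Agent.N877.P24.All
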