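import Pool.Agent.N877.P24.Bil
import Pool.Agent.N123.P24.C1A
import Pool.Agent.N789.P24.C2
import Pool.Agent.N763.P24.CP3F
import Pool.Agent.N402.P15.C1B

/-!
# P24: the character sum of the symbol is a square
-/

set_option autoImplicit false

namespace Pool.Agent.N877.P24

/-- **C1B** -/
theorem t_C1B : S_C1B := by
  intro n hsq h4 a a' X Y hdet
  exact Pool.Agent.N402.P15.t_C1B n hsq h4 n (Or.inl rfl) a a' X Y hdet

/-- **DIAG** -/
theorem t_DIAG : S_DIAG :=
  diag_of Pool.Agent.N123.P24.C1A.t_C1A t_C1B Pool.Agent.N789.P24.t_C2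
    (t_BIL Pool.Agent.N763.P24.f_CP3)

end Pool.Agent.N877.P24
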