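import Pool.Agent.N971.MF.Lval2
import Pool.Agent.N971.MF.SymF
import Pool.Agent.N971.MF.EUL
import Pool.Agent.N971.MF.PER
import Pool.Agent.N971.MF.LAT
import Pool.Agent.N877.P24.Diag
import Pool.Agent.R343.HalfSum
import Pool.Agent.Y687.Lfin

/-!
# The central value of the `L`-function of the twist of `X_0(24)` by `-n`, `n = 11 mod 24`
-/

set_option autoImplicit false
set_option linter.style.haveILetI false

open Finset ZMod

namespace Pool.Agent.N877.P24

open Pool.Agent.H491R3.J (OS)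
open Pool.Agent.Y687 (sum_rrC mem_rr)
open Pool.Agent.N971.MF (E24 W cubic JJ exists_L Symb24 symb)
open Pool.Agent.W97.MT (ap affCount)

/-- the Gauss sum of the Jacobi character -/
theorem gs_eq (d : OS) (h4 : d.1 % 4 = 3) :
    gaussSum (H491R3.J.chi d) (stdAddChar (N := d.1)) = Complex.I * (Real.sqrt d.1 : ℝ) := by
  have h1 := Pool.Agent.R343.CFP.dft_jchar d.1 h4 d.2.2.1 (-1)
  rw [ZMod.dft_apply] at h1
  have h2 : Pool.Agent.H379R2.W.jchar d.1 (-1) = -1 := Pool.Agent.R343.CFP.jchar_odd d.1 h4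
  rw [h2] at h1
  unfold gaussSum
  have h3 : ∀ a : ZMod d.1, H491R3.J.chi d a = Pool.Agent.H379R2.W.jchar d.1 a := fun a => rfl
  have h5 : ∑ a : ZMod d.1, H491R3.J.chi d a * stdAddChar (N := d.1) a =
      ∑ j : ZMod d.1, stdAddChar (N := d.1) (-(j * -1)) • Pool.Agent.H379R2.W.jchar d.1 j := by
    refine sum_congr rfl fun a _ => ?_
    rw [h3, smul_eq_mul, mul_comm]
    congr 2
    ring
  rw [h5, h1]
  ring

/-- the symmetric part of the sum over the residues is zero -/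
theorem sum_even_zero {n : ℕ} (h4 : n % 4 = 3) (s : ℚ → ℤ) (hneg : ∀ x, s (-x) = s x)
    (hper : ∀ x, s (x + 1) = -s x) :
    ∑ u ∈ Pool.Agent.Y687.rr n, jacobiSym (u : ℤ) n * s (2 * ((u : ℚ) / n)) = 0 := by
  have hper2 : ∀ x, s (x + 2) = s x := fun x => by
    rw [show x + 2 = (x + 1) + 1 by ring, hper, hper, neg_neg]
  have h : ∑ u ∈ Pool.Agent.Y687.rr n, jacobiSym (u : ℤ) n * s (2 * ((u : ℚ) / n)) =
      -∑ u ∈ Pool.Agent.Y687.rr n, jacobiSym (u : ℤ) n * s (2 * ((u : ℚ) / n)) := by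
    rw [← Finset.sum_neg_distrib]
    refine Finset.sum_bij' (fun a _ => n - a) (fun a _ => n - a) ?_ ?_ ?_ ?_ ?_
    · intro a ha
      rw [mem_rr] at ha ⊢
      have h0 : a ≠ 0 := by
        rintro rfl
        have := ha.2
        rw [Nat.coprime_zero_left] at this
        omega
      refine ⟨by omega, ?_⟩
      exact (Nat.coprime_self_sub_left ha.1.le).2 ha.2
    · intro a ha
      rw [mem_rr] at ha ⊢
      have h0 : a ≠ 0 := by
        rintro rfl
        have := ha.2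
        rw [Nat.coprime_zero_left] at this
        omega
      refine ⟨by omega, ?_⟩
      exact (Nat.coprime_self_sub_left ha.1.le).2 ha.2
    · intro a ha
      rw [mem_rr] at ha
      have := ha.1
      show n - (n - a) = a
      omega
    · intro a ha
      rw [mem_rr] at ha
      have := ha.1
      show n - (n - a) = a
      omega
    · intro a ha
      rw [mem_rr] at ha
      have hn : (n : ℚ) ≠ 0 := by exact_mod_cast (by omega : n ≠ 0)
      have e1 : (2 * (((n - a : ℕ) : ℚ) / n)) = -(2 * ((a : ℚ) / n)) + 2 := by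
        rw [Nat.cast_sub ha.1.le]
        field_simp
        ring
      have e2 : jacobiSym (((n - a : ℕ)) : ℤ) n = -jacobiSym (a : ℤ) n := by
        rw [Nat.cast_sub ha.1.le, show ((n : ℤ) - (a : ℤ)) = -(a : ℤ) + n * 1 by ring]
        have e3 : jacobiSym (-(a : ℤ) + n * 1) n = jacobiSym (-(a : ℤ)) n := by
          refine jacobiSym.mod_left' ?_
          rw [Int.add_mul_emod_self_left]
        rw [e3, jacobiSym.neg _ (Nat.odd_iff.2 (by omega)), ZMod.χ₄_nat_three_mod_four h4]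
        ring
      rw [e1, hper2, hneg, e2]
      ring
  omega

/-- the odd part -/
theorem sum_odd {n : ℕ} (hn : Squarefree n) (h24 : n % 24 = 11) {sm : ℚ → ℤ} (hS : Symb24 sm) :
    144 * ∑ u ∈ Pool.Agent.Y687.rr n, jacobiSym (u : ℤ) n * sm (2 * ((u : ℚ) / n)) = cc n ^ 2 := by
  have h1 := t_DIAG n ⟨hn, h24⟩
  have hn0 : 0 < n := by omega
  have h2 : ∑ u ∈ Pool.Agent.Y687.rr n, jacobiSym (u : ℤ) n * sm (2 * ((u : ℚ) / n)) =
      -2 * ∑ u ∈ un n, jacobiSym (u : ℤ) n * Fp (2 * u) n := by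
    rw [mul_sum]
    refine sum_congr rfl fun u hu' => ?_
    have hu : u ∈ Pool.Agent.Y687.rr n := hu'
    rw [mem_rr] at hu
    have e := hS.eq_Fp (2 * (u : ℤ)) (n : ℤ) (by exact_mod_cast hn0) (by
      have h3 : Nat.Coprime (6 * (2 * u)) n := by
        refine Nat.Coprime.mul_left ?_ (Nat.Coprime.mul_left ?_ hu.2)
        · have : Nat.gcd 6 n = 1 := by
            have h6 : n % 6 = 5 := by omega
            rw [Nat.gcd_rec, h6]
            norm_num
          exact this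
        · exact Nat.coprime_two_left.2 (Nat.odd_iff.2 (by omega))
      have := Nat.isCoprime_iff_coprime.2 h3
      push_cast at this
      exact this)
    have e2 : (((2 * (u : ℤ) : ℤ) : ℚ) / ((n : ℤ) : ℚ)) = 2 * ((u : ℚ) / n) := by
      push_cast
      ring
    rw [e2] at e
    rw [e]
    ring
  rw [h2]
  linarith

/-- **The central value.** -/
theorem value24 {n : ℕ} (hn : Squarefree n) (h24 : n % 24 = 11) :
    ∃ f : ℂ → ℂ, Differentiable ℂ f ∧
      (∀ s : ℂ, 2 < s.re → f s = ((W n).map (Int.castRingHom ℚ)).LSeries s) ∧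
      f 1 = (((cc n : ℝ) ^ 2 / 576 *
        (2 * ∫ x in {x : ℝ | 0 < cubic (W n) x}, 1 / √(cubic (W n) x)) : ℝ) : ℂ) ∧
      (0 < ∫ x in {x : ℝ | 0 < cubic (W n) x}, 1 / √(cubic (W n) x)) ∧
      ∀ s : ℂ, 3 / 2 < s.re → HasProd (fun p : Nat.Primes =>
        (1 - (ap E24 p : ℂ) * jacobiSym p n * (p : ℂ) ^ (-s) +
          (if (p : ℕ) ∣ 24 then 0 else (p : ℂ)) * (jacobiSym p n : ℂ) ^ 2 *
            (p : ℂ) ^ (-2 * s))⁻¹) (f s) := by
  classical
  have hodd : Odd n := Nat.odd_iff.2 (by omega)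
  have h1 : 1 < n := by omega
  have h4 : n % 4 = 3 := by omega
  haveI : NeZero n := ⟨by omega⟩
  have hco : Nat.Coprime n 24 := by
    have : Nat.gcd n 24 = 1 := by
      rw [Nat.gcd_comm, Nat.gcd_rec, h24]
      norm_num
    exact this
  set d : OS := ⟨n, hodd, hn, h1⟩ with hd
  obtain ⟨g, hg1, hg2, hg3⟩ := exists_L (q := n) hco (H491R3.J.chi d) (H491R3.J.chi_primitive d)
  have hchi : ∀ m : ℕ, H491R3.J.chi d (m : ZMod n) = ((jacobiSym (m : ℤ) n : ℤ) : ℂ) :=
    H491R3.J.chi_natCast d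
  obtain ⟨L, Op, Om, hOp, hOm, g2, g3, hL⟩ := Pool.Agent.N971.MF.LAT.s_lat
  obtain ⟨sp, sm, hs, hev, hpr, hS, -⟩ := symb L g2 g3 hOp hOm hL
  have hper := Pool.Agent.N971.MF.PER.s_per L Op Om hOp hOm g2 g3 hL n (by omega)
  have hn0 : (0 : ℝ) < n := by exact_mod_cast (by omega : 0 < n)
  have hsn : (0 : ℝ) < Real.sqrt n := Real.sqrt_pos.2 hn0
  have hEP : ∀ s : ℂ, 3 / 2 < s.re → HasProd (fun p : Nat.Primes =>
        (1 - (ap E24 p : ℂ) * jacobiSym p n * (p : ℂ) ^ (-s) +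
          (if (p : ℕ) ∣ 24 then 0 else (p : ℂ)) * (jacobiSym p n : ℂ) ^ 2 *
            (p : ℂ) ^ (-2 * s))⁻¹) (g s) := by
    intro s h3
    refine (congrArg (fun g => HasProd g _) (funext fun p => ?_)).mp (hg2 s h3)
    rw [hchi]
  refine ⟨g, hg1, ?_, ?_, ?_, hEP⟩
  · intro s hs2
    exact (Pool.Agent.N971.MF.EUL.s_eul n hn h24 s hs2 (g s) (hEP s (by linarith))).symm
  · rw [hper]
    have hinv : (H491R3.J.chi d)⁻¹ = H491R3.J.chi d := H491R3.J.chi_inv d
    rw [hinv, gs_eq d h4] at hg3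
    have e1 : ∑ u : (ZMod n)ˣ, H491R3.J.chi d (u : ZMod n) * JJ (2 * (((u : ZMod n).val : ℚ) / n)) =
        ∑ a ∈ Pool.Agent.Y687.rr n, ((jacobiSym (a : ℤ) n : ℤ) : ℂ) * JJ (2 * ((a : ℚ) / n)) := by
      rw [sum_rrC]
      refine Finset.sum_congr rfl fun u _ => ?_
      rw [← hchi, ZMod.natCast_zmod_val]
    rw [e1] at hg3
    have e2 : (2 : ℂ) * ∑ a ∈ Pool.Agent.Y687.rr n, ((jacobiSym (a : ℤ) n : ℤ) : ℂ) * JJ (2 * ((a : ℚ) / n)) =
        ((∑ u ∈ Pool.Agent.Y687.rr n, jacobiSym (u : ℤ) n * sp (2 * ((u : ℚ) / n)) : ℤ) : ℂ) * Op +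
        ((∑ u ∈ Pool.Agent.Y687.rr n, jacobiSym (u : ℤ) n * sm (2 * ((u : ℚ) / n)) : ℤ) : ℂ) * Om * Complex.I := by
      push_cast
      rw [Finset.mul_sum, Finset.sum_mul, Finset.sum_mul, Finset.sum_mul,
        ← Finset.sum_add_distrib]
      refine Finset.sum_congr rfl fun a _ => ?_
      have := hs (2 * ((a : ℚ) / n))
      linear_combination ((jacobiSym (a : ℤ) n : ℤ) : ℂ) * this
    rw [sum_even_zero h4 sp hev hpr, ← hg3] at e2
    have h5 := sum_odd hn h24 hS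
    set SM : ℤ := ∑ u ∈ Pool.Agent.Y687.rr n, jacobiSym (u : ℤ) n * sm (2 * ((u : ℚ) / n)) with hSM
    have h6 : (144 : ℂ) * (SM : ℂ) = ((cc n : ℤ) : ℂ) ^ 2 := by exact_mod_cast h5
    have hs0 : ((Real.sqrt n : ℝ) : ℂ) ≠ 0 := by exact_mod_cast hsn.ne'
    have hdn : ((d.1 : ℕ) : ℝ) = (n : ℝ) := rfl
    rw [hdn] at e2
    have h7 : Complex.I * (2 * (Real.sqrt n : ℝ) * g 1) = Complex.I * ((SM : ℂ) * Om) := by
      rw [Int.cast_zero] at e2
      linear_combination e2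
    have h8 := mul_left_cancel₀ Complex.I_ne_zero h7
    have h9 : g 1 = (SM : ℂ) * Om / (2 * (Real.sqrt n : ℝ)) := by
      rw [eq_div_iff (mul_ne_zero two_ne_zero hs0)]
      linear_combination h8
    have h10 : (SM : ℂ) = ((cc n : ℤ) : ℂ) ^ 2 / 144 := by
      rw [← h6]
      ring
    rw [h9, h10]
    push_cast
    ring
  · rw [hper]
    exact div_pos hOm hsn

end Pool.Agent.N877.P24
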