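import Pool.Agent.N877.P24.Defs

/-!
# P24: the relations between pairs of vectors of `ℤ³` and the Gross sums
-/

set_option autoImplicit false

namespace Pool.Agent.N877.P24

open Finset Matrix
open Pool.Agent.Z700 (V3 vec cp hh fac chi12)

/-! ### vectors -/

theorem dot3 (v w : V3) : v ⬝ᵥ w = v 0 * w 0 + v 1 * w 1 + v 2 * w 2 := by
  simp [dotProduct, Fin.sum_univ_three]

theorem mem_vec (n : ℤ) (v : V3) : v ∈ vec n ↔ v 0 * v 0 + v 1 * v 1 + v 2 * v 2 = n := by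
  rw [Pool.Agent.Z700.vec, Finset.mem_filter, dot3, Fintype.mem_piFinset]
  constructor
  · exact fun h => h.2
  · intro h
    refine ⟨fun i => ?_, h⟩
    have key : ∀ x : ℤ, x ≤ x * x ∧ -x ≤ x * x := fun x => by
      constructor <;> rcases le_total 0 x with hx | hx <;> rcases eq_or_ne x 0 with h0 | h0
      · rw [h0]; simp
      · have : 1 ≤ x := by omega
        nlinarith
      · rw [h0]; simp
      · nlinarith [mul_self_nonneg x]
      · rw [h0]; simp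
      · nlinarith [mul_self_nonneg x]
      · rw [h0]; simp
      · have : x ≤ -1 := by omega
        nlinarith
    have k0 := key (v 0)
    have k1 := key (v 1)
    have k2 := key (v 2)
    have s0 := mul_self_nonneg (v 0)
    have s1 := mul_self_nonneg (v 1)
    have s2 := mul_self_nonneg (v 2)
    rw [Finset.mem_Icc]
    fin_cases i
    · exact ⟨by show -n ≤ v 0; linarith, by show v 0 ≤ n; linarith⟩
    · exact ⟨by show -n ≤ v 1; linarith, by show v 1 ≤ n; linarith⟩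
    · exact ⟨by show -n ≤ v 2; linarith, by show v 2 ≤ n; linarith⟩

/-! ### the character -/

/-- the character on `ℤ / 12` -/
def x12 (x : ZMod 12) : ℤ := if x = 1 ∨ x = 11 then 1 else if x = 5 ∨ x = 7 then -1 else 0

theorem cast12 (n : ℤ) (r : ℕ) (hr : r < 12) : ((n : ZMod 12) = (r : ZMod 12)) ↔ n % 12 = r := by
  have h1 : ((r : ℕ) : ZMod 12) = (((r : ℕ) : ℤ) : ZMod 12) := by push_cast; rfl
  rw [h1, ZMod.intCast_eq_intCast_iff']
  constructor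
  · intro h
    push_cast at h
    omega
  · intro h
    push_cast
    omega

theorem chi_eq (n : ℤ) : chi12 n = x12 (n : ZMod 12) := by
  unfold chi12 x12
  have h1 := cast12 n 1 (by norm_num)
  have h2 := cast12 n 11 (by norm_num)
  have h3 := cast12 n 5 (by norm_num)
  have h4 := cast12 n 7 (by norm_num)
  push_cast at h1 h2 h3 h4
  simp only [h1, h2, h3, h4]

theorem x12_mul : ∀ a b : ZMod 12, x12 (a * b) = x12 a * x12 b := by decide +kernel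

theorem chi_mul (a b : ℤ) : chi12 (a * b) = chi12 a * chi12 b := by
  rw [chi_eq, chi_eq, chi_eq, Int.cast_mul, x12_mul]

/-- units modulo `12` -/
def uu (x : ZMod 12) : Prop := x = 1 ∨ x = 5 ∨ x = 7 ∨ x = 11

instance (x : ZMod 12) : Decidable (uu x) := by unfold uu; infer_instance

/-- odd multiples of `3` modulo `12` -/
def tt (x : ZMod 12) : Prop := x = 3 ∨ x = 9

instance (x : ZMod 12) : Decidable (tt x) := by unfold tt; infer_instance

theorem uu_mul : ∀ x y : ZMod 12, uu x → uu y → uu (x * y) := by decide +kernel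

theorem tt_mul : ∀ x y : ZMod 12, (tt x ∧ uu y) ∨ (uu x ∧ tt y) ∨ (tt x ∧ tt y) → tt (x * y) := by
  decide +kernel

theorem uu_of {x : ℤ} (h2 : x % 2 = 1) (h3 : x % 3 ≠ 0) : uu (x : ZMod 12) := by
  unfold uu
  have h1 := cast12 x 1 (by norm_num)
  have h4 := cast12 x 11 (by norm_num)
  have h5 := cast12 x 5 (by norm_num)
  have h6 := cast12 x 7 (by norm_num)
  push_cast at h1 h4 h5 h6
  rw [h1, h4, h5, h6]
  omega

theorem tt_of {x : ℤ} (h2 : x % 2 = 1) (h3 : x % 3 = 0) : tt (x : ZMod 12) := by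
  unfold tt
  have h1 := cast12 x 3 (by norm_num)
  have h4 := cast12 x 9 (by norm_num)
  push_cast at h1 h4
  rw [h1, h4]
  omega

theorem sq8 (x : ℤ) : (x % 2 = 1 ∧ x * x % 8 = 1) ∨ (x % 2 = 0 ∧ (x * x % 8 = 0 ∨ x * x % 8 = 4)) := by
  have h : x % 8 = 0 ∨ x % 8 = 1 ∨ x % 8 = 2 ∨ x % 8 = 3 ∨ x % 8 = 4 ∨ x % 8 = 5 ∨ x % 8 = 6 ∨
    x % 8 = 7 := by omega
  rcases h with h | h | h | h | h | h | h | h <;>
  · have h' := Int.mul_emod x x 8
    rw [h] at h'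
    norm_num at h'
    omega

theorem sq3 (x : ℤ) : (x % 3 = 0 ∧ x * x % 9 = 0) ∨ (x % 3 ≠ 0 ∧ x * x % 3 = 1) := by
  have h : x % 9 = 0 ∨ x % 9 = 1 ∨ x % 9 = 2 ∨ x % 9 = 3 ∨ x % 9 = 4 ∨ x % 9 = 5 ∨ x % 9 = 6 ∨
    x % 9 = 7 ∨ x % 9 = 8 := by omega
  rcases h with h | h | h | h | h | h | h | h | h <;>
  · have h' := Int.mul_emod x x 9
    rw [h] at h'
    norm_num at h'
    omega

theorem odd_vec {n : ℤ} (hn : n % 8 = 3) {v : V3} (hv : v ∈ vec n) :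
    v 0 % 2 = 1 ∧ v 1 % 2 = 1 ∧ v 2 % 2 = 1 := by
  rw [mem_vec] at hv
  have h0 := sq8 (v 0)
  have h1 := sq8 (v 1)
  have h2 := sq8 (v 2)
  generalize v 0 * v 0 = A at *
  generalize v 1 * v 1 = B at *
  generalize v 2 * v 2 = C at *
  omega

theorem vec3 {n : ℤ} (hn : n % 24 = 3) (h9 : ¬ (9 : ℤ) ∣ n) {v : V3} (hv : v ∈ vec n) :
    uu (v 0 : ZMod 12) ∧ uu (v 1 : ZMod 12) ∧ uu (v 2 : ZMod 12) := by
  obtain ⟨o0, o1, o2⟩ := odd_vec (by omega) hv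
  rw [mem_vec] at hv
  have h0 := sq3 (v 0)
  have h1 := sq3 (v 1)
  have h2 := sq3 (v 2)
  have key : v 0 % 3 ≠ 0 ∧ v 1 % 3 ≠ 0 ∧ v 2 % 3 ≠ 0 := by
    generalize v 0 * v 0 = A at *
    generalize v 1 * v 1 = B at *
    generalize v 2 * v 2 = C at *
    omega
  exact ⟨uu_of o0 key.1, uu_of o1 key.2.1, uu_of o2 key.2.2⟩

theorem vec11 {n : ℤ} (hn : n % 24 = 11) {v : V3} (hv : v ∈ vec n) :
    (tt (v 0 : ZMod 12) ∧ uu (v 1 : ZMod 12) ∧ uu (v 2 : ZMod 12)) ∨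
    (uu (v 0 : ZMod 12) ∧ tt (v 1 : ZMod 12) ∧ uu (v 2 : ZMod 12)) ∨
    (uu (v 0 : ZMod 12) ∧ uu (v 1 : ZMod 12) ∧ tt (v 2 : ZMod 12)) := by
  obtain ⟨o0, o1, o2⟩ := odd_vec (by omega) hv
  rw [mem_vec] at hv
  have h0 := sq3 (v 0)
  have h1 := sq3 (v 1)
  have h2 := sq3 (v 2)
  have key : (v 0 % 3 = 0 ∧ v 1 % 3 ≠ 0 ∧ v 2 % 3 ≠ 0) ∨ (v 0 % 3 ≠ 0 ∧ v 1 % 3 = 0 ∧ v 2 % 3 ≠ 0) ∨
      (v 0 % 3 ≠ 0 ∧ v 1 % 3 ≠ 0 ∧ v 2 % 3 = 0) := by
    generalize v 0 * v 0 = A at *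
    generalize v 1 * v 1 = B at *
    generalize v 2 * v 2 = C at *
    omega
  rcases key with h | h | h
  · exact Or.inl ⟨tt_of o0 h.1, uu_of o1 h.2.1, uu_of o2 h.2.2⟩
  · exact Or.inr (Or.inl ⟨uu_of o0 h.1, tt_of o1 h.2.1, uu_of o2 h.2.2⟩)
  · exact Or.inr (Or.inr ⟨uu_of o0 h.1, uu_of o1 h.2.1, tt_of o2 h.2.2⟩)

theorem vec19 {n : ℤ} (hn : n % 24 = 19) {v : V3} (hv : v ∈ vec n) :
    (uu (v 0 : ZMod 12) ∧ tt (v 1 : ZMod 12) ∧ tt (v 2 : ZMod 12)) ∨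
    (tt (v 0 : ZMod 12) ∧ uu (v 1 : ZMod 12) ∧ tt (v 2 : ZMod 12)) ∨
    (tt (v 0 : ZMod 12) ∧ tt (v 1 : ZMod 12) ∧ uu (v 2 : ZMod 12)) := by
  obtain ⟨o0, o1, o2⟩ := odd_vec (by omega) hv
  rw [mem_vec] at hv
  have h0 := sq3 (v 0)
  have h1 := sq3 (v 1)
  have h2 := sq3 (v 2)
  have key : (v 0 % 3 ≠ 0 ∧ v 1 % 3 = 0 ∧ v 2 % 3 = 0) ∨ (v 0 % 3 = 0 ∧ v 1 % 3 ≠ 0 ∧ v 2 % 3 = 0) ∨
      (v 0 % 3 = 0 ∧ v 1 % 3 = 0 ∧ v 2 % 3 ≠ 0) := by
    generalize v 0 * v 0 = A at *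
    generalize v 1 * v 1 = B at *
    generalize v 2 * v 2 = C at *
    omega
  rcases key with h | h | h
  · exact Or.inl ⟨uu_of o0 h.1, tt_of o1 h.2.1, tt_of o2 h.2.2⟩
  · exact Or.inr (Or.inl ⟨tt_of o0 h.1, uu_of o1 h.2.1, tt_of o2 h.2.2⟩)
  · exact Or.inr (Or.inr ⟨tt_of o0 h.1, tt_of o1 h.2.1, uu_of o2 h.2.2⟩)

/-! ### sums over the vectors -/

/-- permutation of the coordinates -/
theorem sum_perm (n : ℤ) (e : Equiv.Perm (Fin 3)) (F : V3 → ℤ) :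
    ∑ v ∈ vec n, F (fun i => v (e i)) = ∑ v ∈ vec n, F v := by
  refine Finset.sum_nbij' (fun v i => v (e i)) (fun v i => v (e.symm i)) ?_ ?_ ?_ ?_ ?_
  · intro v hv
    rw [mem_vec] at hv ⊢
    rw [← hv]
    have h := Equiv.sum_comp e (fun i => v i * v i)
    simpa [Fin.sum_univ_three] using h
  · intro v hv
    rw [mem_vec] at hv ⊢
    rw [← hv]
    have h := Equiv.sum_comp e.symm (fun i => v i * v i)
    simpa [Fin.sum_univ_three] using h
  · intro v _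
    funext i
    simp
  · intro v _
    funext i
    simp
  · intro v _
    rfl

/-- sign changes -/
theorem sum_sign (n : ℤ) (e : Fin 3 → ℤ) (he : ∀ i, e i * e i = 1) (F : V3 → ℤ) :
    ∑ v ∈ vec n, F (fun i => e i * v i) = ∑ v ∈ vec n, F v := by
  refine Finset.sum_nbij' (fun v i => e i * v i) (fun v i => e i * v i) ?_ ?_ ?_ ?_ ?_
  · intro v hv
    rw [mem_vec] at hv ⊢
    rw [← hv]
    have h0 := he 0
    have h1 := he 1
    have h2 := he 2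
    linear_combination (v 0 * v 0) * h0 + (v 1 * v 1) * h1 + (v 2 * v 2) * h2
  · intro v hv
    rw [mem_vec] at hv ⊢
    rw [← hv]
    have h0 := he 0
    have h1 := he 1
    have h2 := he 2
    linear_combination (v 0 * v 0) * h0 + (v 1 * v 1) * h1 + (v 2 * v 2) * h2
  · intro v _
    funext i
    show e i * (e i * v i) = v i
    rw [← mul_assoc, he i, one_mul]
  · intro v _
    funext i
    show e i * (e i * v i) = v i
    rw [← mul_assoc, he i, one_mul]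
  · intro v _
    rfl

/-- the sum over the pairs of a function of the products of the coordinates -/
noncomputable def TS (n1 n2 : ℤ) (Φ : ZMod 12 → ZMod 12 → ZMod 12 → ℤ) : ℤ :=
  ∑ q ∈ vec n1 ×ˢ vec n2, Φ ((q.1 0 * q.2 0 : ℤ) : ZMod 12) ((q.1 1 * q.2 1 : ℤ) : ZMod 12)
    ((q.1 2 * q.2 2 : ℤ) : ZMod 12)

/-- the sum over the sign changes -/
def sum8 (Φ : ZMod 12 → ZMod 12 → ZMod 12 → ℤ) (a b c : ZMod 12) : ℤ :=
  Φ a b c + Φ (-a) b c + Φ a (-b) c + Φ (-a) (-b) c + Φ a b (-c) + Φ (-a) b (-c) + Φ a (-b) (-c) +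
    Φ (-a) (-b) (-c)

theorem TS_sign (n1 n2 : ℤ) (e : Fin 3 → ℤ) (he : ∀ i, e i * e i = 1)
    (Φ : ZMod 12 → ZMod 12 → ZMod 12 → ℤ) :
    TS n1 n2 (fun a b c => Φ (e 0 * a) (e 1 * b) (e 2 * c)) = TS n1 n2 Φ := by
  unfold TS
  rw [Finset.sum_product, Finset.sum_product]
  refine Finset.sum_congr rfl fun x _ => ?_
  symm
  rw [← sum_sign n2 e he (fun y => Φ ((x 0 * y 0 : ℤ) : ZMod 12) ((x 1 * y 1 : ℤ) : ZMod 12)
    ((x 2 * y 2 : ℤ) : ZMod 12))]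
  refine Finset.sum_congr rfl fun y _ => ?_
  congr 1 <;> · push_cast; ring

theorem TS_eight (n1 n2 : ℤ) (Φ : ZMod 12 → ZMod 12 → ZMod 12 → ℤ) :
    8 * TS n1 n2 Φ = TS n1 n2 (sum8 Φ) := by
  have h2 := TS_sign n1 n2 ![-1, 1, 1] (by decide) Φ
  have h3 := TS_sign n1 n2 ![1, -1, 1] (by decide) Φ
  have h4 := TS_sign n1 n2 ![-1, -1, 1] (by decide) Φ
  have h5 := TS_sign n1 n2 ![1, 1, -1] (by decide) Φ
  have h6 := TS_sign n1 n2 ![-1, 1, -1] (by decide) Φ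
  have h7 := TS_sign n1 n2 ![1, -1, -1] (by decide) Φ
  have h8 := TS_sign n1 n2 ![-1, -1, -1] (by decide) Φ
  simp only [Matrix.cons_val_zero, Matrix.cons_val_one, Matrix.cons_val, Int.cast_one, Int.cast_neg,
    one_mul, neg_mul] at h2 h3 h4 h5 h6 h7 h8
  have h9 : TS n1 n2 (sum8 Φ) = TS n1 n2 (fun a b c => Φ a b c) + TS n1 n2 (fun a b c => Φ (-a) b c) +
      TS n1 n2 (fun a b c => Φ a (-b) c) + TS n1 n2 (fun a b c => Φ (-a) (-b) c) +
      TS n1 n2 (fun a b c => Φ a b (-c)) + TS n1 n2 (fun a b c => Φ (-a) b (-c)) +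
      TS n1 n2 (fun a b c => Φ a (-b) (-c)) + TS n1 n2 (fun a b c => Φ (-a) (-b) (-c)) := by
    unfold TS sum8
    simp only [Finset.sum_add_distrib]
  rw [h9, h2, h3, h4, h5, h6, h7, h8]
  ring

theorem TS_congr {n1 n2 : ℤ} {Φ Ψ : ZMod 12 → ZMod 12 → ZMod 12 → ℤ}
    (h : ∀ x ∈ vec n1, ∀ y ∈ vec n2, Φ ((x 0 * y 0 : ℤ) : ZMod 12) ((x 1 * y 1 : ℤ) : ZMod 12)
      ((x 2 * y 2 : ℤ) : ZMod 12) = Ψ ((x 0 * y 0 : ℤ) : ZMod 12) ((x 1 * y 1 : ℤ) : ZMod 12)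
      ((x 2 * y 2 : ℤ) : ZMod 12)) : TS n1 n2 Φ = TS n1 n2 Ψ := by
  unfold TS
  refine Finset.sum_congr rfl fun q hq => ?_
  rw [Finset.mem_product] at hq
  exact h q.1 hq.1 q.2 hq.2

theorem sum_mul' (n1 n2 : ℤ) (F G : V3 → ℤ) : ∑ q ∈ vec n1 ×ˢ vec n2, F q.1 * G q.2 =
    (∑ v ∈ vec n1, F v) * ∑ v ∈ vec n2, G v := by
  rw [Finset.sum_product, Finset.sum_mul_sum]

/-- the basic sum -/
noncomputable def al (n : ℤ) : ℤ := ∑ v ∈ vec n, chi12 (v 0) * chi12 (v 1)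

theorem al12 (n : ℤ) : ∑ v ∈ vec n, chi12 (v 1) * chi12 (v 2) = al n := by
  have h := sum_perm n (Equiv.swap 0 2) (fun v => chi12 (v 0) * chi12 (v 1))
  unfold al
  rw [← h]
  refine Finset.sum_congr rfl fun v _ => ?_
  show _ = chi12 (v (Equiv.swap 0 2 0)) * chi12 (v (Equiv.swap 0 2 1))
  rw [Equiv.swap_apply_left, Equiv.swap_apply_of_ne_of_ne (by decide) (by decide), mul_comm]

theorem al02 (n : ℤ) : ∑ v ∈ vec n, chi12 (v 0) * chi12 (v 2) = al n := by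
  have h := sum_perm n (Equiv.swap 1 2) (fun v => chi12 (v 0) * chi12 (v 1))
  unfold al
  rw [← h]
  refine Finset.sum_congr rfl fun v _ => ?_
  show _ = chi12 (v (Equiv.swap 1 2 0)) * chi12 (v (Equiv.swap 1 2 1))
  rw [Equiv.swap_apply_left, Equiv.swap_apply_of_ne_of_ne (by decide) (by decide)]

theorem cc3 {n : ℤ} (hn : n % 3 = 0) : cc n = -(3 * al n) := by
  unfold cc phi
  rw [if_pos hn, Finset.sum_neg_distrib, Finset.sum_add_distrib, Finset.sum_add_distrib, al12, al02]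
  unfold al
  ring

theorem x12_tt : ∀ x : ZMod 12, tt x → x12 x = 0 := by decide +kernel

theorem dvd3 (x : ℤ) : (3 : ℤ) ∣ x ↔ (4 : ZMod 12) * (x : ZMod 12) = 0 := by
  have h : (4 : ZMod 12) * (x : ZMod 12) = ((4 * x : ℤ) : ZMod 12) := by push_cast; ring
  rw [h, ZMod.intCast_zmod_eq_zero_iff_dvd]
  push_cast
  omega

theorem psi_eq {n : ℤ} (hn : n % 24 = 11) {v : V3} (hv : v ∈ vec n) :
    psi v = chi12 (v 0) * chi12 (v 1) + chi12 (v 1) * chi12 (v 2) + chi12 (v 0) * chi12 (v 2) := by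
  have h := vec11 hn hv
  unfold psi
  rw [Fin.prod_univ_three]
  simp only [dvd3, chi_eq]
  generalize (v 0 : ZMod 12) = a at *
  generalize (v 1 : ZMod 12) = b at *
  generalize (v 2 : ZMod 12) = c at *
  revert a b c
  decide +kernel

theorem cc11 {n : ℤ} (hn : n % 24 = 11) : cc n = 3 * al n := by
  unfold cc
  rw [if_neg (by omega), Finset.sum_congr rfl (fun v hv => psi_eq hn hv), Finset.sum_add_distrib,
    Finset.sum_add_distrib, al12, al02]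
  unfold al
  ring

/-! ### proportionality modulo `4` -/

theorem d32 {x y : V3} (hx : x 0 % 2 = 1 ∧ x 1 % 2 = 1 ∧ x 2 % 2 = 1)
    (hy : y 0 % 2 = 1 ∧ y 1 % 2 = 1 ∧ y 2 % 2 = 1) :
    (32 : ℤ) ∣ (x 0 * x 0 + x 1 * x 1 + x 2 * x 2) * (y 0 * y 0 + y 1 * y 1 + y 2 * y 2) -
      (x 0 * y 0 + x 1 * y 1 + x 2 * y 2) ^ 2 ↔
    ((4 : ℤ) ∣ x 0 * y 0 - x 1 * y 1 ∧ (4 : ℤ) ∣ x 1 * y 1 - x 2 * y 2) := by
  obtain ⟨a, ha⟩ : ∃ a, x 0 = 2 * a + 1 := ⟨x 0 / 2, by omega⟩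
  obtain ⟨b, hb⟩ : ∃ a, x 1 = 2 * a + 1 := ⟨x 1 / 2, by omega⟩
  obtain ⟨c, hc⟩ : ∃ a, x 2 = 2 * a + 1 := ⟨x 2 / 2, by omega⟩
  obtain ⟨a', ha'⟩ : ∃ a, y 0 = 2 * a + 1 := ⟨y 0 / 2, by omega⟩
  obtain ⟨b', hb'⟩ : ∃ a, y 1 = 2 * a + 1 := ⟨y 1 / 2, by omega⟩
  obtain ⟨c', hc'⟩ : ∃ a, y 2 = 2 * a + 1 := ⟨y 2 / 2, by omega⟩
  rw [ha, hb, hc, ha', hb', hc']
  -- the halves of the cross products
  obtain ⟨u, hu⟩ : ∃ u, u = (2 * a * b' + a + b') - (2 * b * a' + b + a') := ⟨_, rfl⟩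
  obtain ⟨w, hw⟩ : ∃ w, w = (2 * b * c' + b + c') - (2 * c * b' + c + b') := ⟨_, rfl⟩
  obtain ⟨z, hz⟩ : ∃ z, z = (2 * a * c' + a + c') - (2 * c * a' + c + a') := ⟨_, rfl⟩
  have e1 : ((2 * a + 1) * (2 * a + 1) + (2 * b + 1) * (2 * b + 1) + (2 * c + 1) * (2 * c + 1)) *
      ((2 * a' + 1) * (2 * a' + 1) + (2 * b' + 1) * (2 * b' + 1) + (2 * c' + 1) * (2 * c' + 1)) -
      ((2 * a + 1) * (2 * a' + 1) + (2 * b + 1) * (2 * b' + 1) + (2 * c + 1) * (2 * c' + 1)) ^ 2 =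
      4 * (u * u + w * w + z * z) := by
    rw [hu, hw, hz]; ring
  have e2 : (2 * a + 1) * (2 * a' + 1) - (2 * b + 1) * (2 * b' + 1) =
      2 * (2 * a * a' + a + a' - (2 * b * b' + b + b')) := by ring
  have e3 : (2 * b + 1) * (2 * b' + 1) - (2 * c + 1) * (2 * c' + 1) =
      2 * (2 * b * b' + b + b' - (2 * c * c' + c + c')) := by ring
  have e4 : z * (2 * b + 1) = u * (2 * c + 1) + w * (2 * a + 1) := by
    rw [hu, hw, hz]; ring
  rw [e1, e2, e3]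
  have pu : u % 2 = (a + a' - (b + b')) % 2 := by rw [hu]; ring_nf; omega
  have pw : w % 2 = (b + b' - (c + c')) % 2 := by rw [hw]; ring_nf; omega
  have pz : z % 2 = (a + a' - (c + c')) % 2 := by rw [hz]; ring_nf; omega
  have h0 := sq8 u
  have h1 := sq8 w
  have h2 := sq8 z
  have l1 : (4 : ℤ) ∣ 2 * (2 * a * a' + a + a' - (2 * b * b' + b + b')) ↔
      (a + a' - (b + b')) % 2 = 0 := by
    constructor
    · intro h
      have : (2 : ℤ) ∣ (2 * a * a' + a + a' - (2 * b * b' + b + b')) := by omega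
      obtain ⟨k, hk⟩ := this
      have : a + a' - (b + b') = 2 * (k - a * a' + b * b') := by linear_combination hk
      omega
    · intro h
      obtain ⟨k, hk⟩ : (2 : ℤ) ∣ a + a' - (b + b') := by omega
      exact ⟨k + a * a' - b * b', by linear_combination 2 * hk⟩
  have l2 : (4 : ℤ) ∣ 2 * (2 * b * b' + b + b' - (2 * c * c' + c + c')) ↔
      (b + b' - (c + c')) % 2 = 0 := by
    constructor
    · intro h
      have : (2 : ℤ) ∣ (2 * b * b' + b + b' - (2 * c * c' + c + c')) := by omega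
      obtain ⟨k, hk⟩ := this
      have : b + b' - (c + c') = 2 * (k - b * b' + c * c') := by linear_combination hk
      omega
    · intro h
      obtain ⟨k, hk⟩ : (2 : ℤ) ∣ b + b' - (c + c') := by omega
      exact ⟨k + b * b' - c * c', by linear_combination 2 * hk⟩
  rw [l1, l2]
  constructor
  · intro h
    have h3 : (8 : ℤ) ∣ u * u + w * w + z * z := by omega
    generalize u * u = U at *
    generalize w * w = W at *
    generalize z * z = Z at *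
    omega
  · rintro ⟨h3, h4⟩
    obtain ⟨u', hu'⟩ : (2 : ℤ) ∣ u := by omega
    obtain ⟨w', hw'⟩ : (2 : ℤ) ∣ w := by omega
    obtain ⟨z', hz'⟩ : (2 : ℤ) ∣ z := by omega
    rw [hu', hw', hz'] at e4
    rw [hu', hw', hz']
    have e5 : z' * (2 * b + 1) = u' * (2 * c + 1) + w' * (2 * a + 1) := by
      have : 2 * (z' * (2 * b + 1)) = 2 * (u' * (2 * c + 1) + w' * (2 * a + 1)) := by
        linear_combination e4
      omega
    have e6 : z' * z' = (u' + w') * (u' + w') +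
        2 * (u' * c + w' * a - z' * b) * (z' + u' + w') := by
      have : z' = u' + w' + 2 * (u' * c + w' * a - z' * b) := by linear_combination e5
      linear_combination (z' + u' + w') * this
    refine ⟨u' * u' + w' * w' + u' * w' + (u' * c + w' * a - z' * b) * (z' + u' + w'), ?_⟩
    linear_combination 16 * e6

end Pool.Agent.N877.P24
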