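import Pool.Agent.N877.P24.Rel

/-!
# P24: the relations REL33, REL32, REL31, REL22, FULL22
-/

set_option autoImplicit false

namespace Pool.Agent.N877.P24

open Finset Matrix
open Pool.Agent.Z700 (V3 vec cp hh fac chi12)

theorem dvd4 (x : ℤ) : (4 : ℤ) ∣ x ↔ (3 : ZMod 12) * (x : ZMod 12) = 0 := by
  have h : (3 : ZMod 12) * (x : ZMod 12) = ((3 * x : ℤ) : ZMod 12) := by push_cast; ring
  rw [h, ZMod.intCast_zmod_eq_zero_iff_dvd]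
  push_cast
  omega

/-- the indicator of `cp0` -/
def F0 (a b c : ZMod 12) : ℤ :=
  if 4 * (a + b + c) = 0 ∧ 3 * (a - b) = 0 ∧ 3 * (b - c) = 0 then 1 else 0

theorem cp0_eq {n1 n2 : ℤ} (h1 : n1 % 8 = 3) (h2 : n2 % 8 = 3) : (cp0 n1 n2 : ℤ) = TS n1 n2 F0 := by
  unfold cp0 TS
  rw [Finset.card_filter]
  simp only [Nat.cast_sum, Nat.cast_ite, Nat.cast_one, Nat.cast_zero]
  refine Finset.sum_congr rfl fun q hq => ?_
  rw [Finset.mem_product] at hq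
  have o1 := odd_vec h1 hq.1
  have o2 := odd_vec h2 hq.2
  have hd := d32 o1 o2
  have m1 := (mem_vec _ _).1 hq.1
  have m2 := (mem_vec _ _).1 hq.2
  rw [m1, m2] at hd
  have e : ((3 : ℤ) ∣ q.1 ⬝ᵥ q.2 ∧ (32 : ℤ) ∣ n1 * n2 - (q.1 ⬝ᵥ q.2) ^ 2) ↔
      (4 * (((q.1 0 * q.2 0 : ℤ) : ZMod 12) + ((q.1 1 * q.2 1 : ℤ) : ZMod 12) +
        ((q.1 2 * q.2 2 : ℤ) : ZMod 12)) = 0 ∧
      3 * (((q.1 0 * q.2 0 : ℤ) : ZMod 12) - ((q.1 1 * q.2 1 : ℤ) : ZMod 12)) = 0 ∧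
      3 * (((q.1 1 * q.2 1 : ℤ) : ZMod 12) - ((q.1 2 * q.2 2 : ℤ) : ZMod 12)) = 0) := by
    rw [dot3, hd, dvd3, dvd4, dvd4]
    push_cast
    rfl
  unfold F0
  by_cases hc : ((3 : ℤ) ∣ q.1 ⬝ᵥ q.2 ∧ (32 : ℤ) ∣ n1 * n2 - (q.1 ⬝ᵥ q.2) ^ 2)
  · rw [if_pos hc, if_pos (e.1 hc)]
  · rw [if_neg hc, if_neg (fun h => hc (e.2 h))]

/-- the polynomial of the sums -/
def Pl (a b c : ZMod 12) : ℤ := x12 a * x12 b + x12 b * x12 c + x12 a * x12 c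

theorem TS_one (n1 n2 : ℤ) : TS n1 n2 (fun _ _ _ => 1) = rr n1 * rr n2 := by
  unfold TS rr
  rw [Finset.sum_const, Finset.card_product]
  simp

theorem TS_Pl (n1 n2 : ℤ) : TS n1 n2 Pl = 3 * (al n1 * al n2) := by
  have key : ∀ i j : Fin 3, (∑ v ∈ vec n1, chi12 (v i) * chi12 (v j) = al n1) →
      (∑ v ∈ vec n2, chi12 (v i) * chi12 (v j) = al n2) →
      ∑ q ∈ vec n1 ×ˢ vec n2, x12 ((q.1 i * q.2 i : ℤ) : ZMod 12) * x12 ((q.1 j * q.2 j : ℤ) : ZMod 12) =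
        al n1 * al n2 := by
    intro i j h1 h2
    rw [← h1, ← h2, ← sum_mul']
    refine Finset.sum_congr rfl fun q _ => ?_
    rw [← chi_eq, ← chi_eq, chi_mul, chi_mul]
    ring
  unfold TS Pl
  rw [Finset.sum_add_distrib, Finset.sum_add_distrib, key 0 1 rfl rfl, key 1 2 (al12 _) (al12 _),
    key 0 2 (al02 _) (al02 _)]
  ring

theorem TS_lin (n1 n2 : ℤ) (k : ℤ) (Φ Ψ : ZMod 12 → ZMod 12 → ZMod 12 → ℤ) :
    TS n1 n2 (fun a b c => Φ a b c + k * Ψ a b c) = TS n1 n2 Φ + k * TS n1 n2 Ψ := by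
  unfold TS
  rw [Finset.sum_add_distrib, Finset.mul_sum]

theorem P33 : ∀ a b c : ZMod 12, uu a → uu b → uu c → 2 * sum8 F0 a b c = 1 + 1 * Pl a b c := by
  decide +kernel

/-- exactly one odd multiple of three -/
def D1 (a b c : ZMod 12) : Prop := (tt a ∧ uu b ∧ uu c) ∨ (uu a ∧ tt b ∧ uu c) ∨ (uu a ∧ uu b ∧ tt c)

instance (a b c : ZMod 12) : Decidable (D1 a b c) := by unfold D1; infer_instance

/-- exactly two odd multiples of three -/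
def D2 (a b c : ZMod 12) : Prop := (uu a ∧ tt b ∧ tt c) ∨ (tt a ∧ uu b ∧ tt c) ∨ (tt a ∧ tt b ∧ uu c)

instance (a b c : ZMod 12) : Decidable (D2 a b c) := by unfold D2; infer_instance

theorem P32 : ∀ a b c : ZMod 12, D1 a b c → sum8 F0 a b c = 1 + (-1) * Pl a b c := by
  decide +kernel

theorem P31 : ∀ a b c : ZMod 12, D2 a b c → F0 a b c = 0 := by
  decide +kernel

theorem cast_mul (x y : ℤ) : ((x * y : ℤ) : ZMod 12) = (x : ZMod 12) * (y : ZMod 12) := by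
  push_cast; rfl

/-- **REL33** -/
theorem t_REL33 : S_REL33 := by
  intro n1 n2 h1 h1' h2 h2'
  have a1 : (n1 : ℤ) % 24 = 3 := by omega
  have a2 : (n2 : ℤ) % 24 = 3 := by omega
  have b1 : ¬ (9 : ℤ) ∣ n1 := by omega
  have b2 : ¬ (9 : ℤ) ∣ n2 := by omega
  have h8 := TS_eight n1 n2 F0
  have e : TS n1 n2 (fun a b c => 2 * sum8 F0 a b c) = TS n1 n2 (fun a b c => 1 + 1 * Pl a b c) := by
    refine TS_congr fun x hx y hy => ?_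
    obtain ⟨x0, x1, x2⟩ := vec3 a1 b1 hx
    obtain ⟨y0, y1, y2⟩ := vec3 a2 b2 hy
    simp only [cast_mul]
    exact P33 _ _ _ (uu_mul _ _ x0 y0) (uu_mul _ _ x1 y1) (uu_mul _ _ x2 y2)
  have e2 : TS n1 n2 (fun a b c => 2 * sum8 F0 a b c) = 2 * TS n1 n2 (sum8 F0) := by
    unfold TS
    rw [Finset.mul_sum]
  rw [TS_lin n1 n2 1 (fun _ _ _ => 1) Pl, TS_one, TS_Pl] at e
  rw [cp0_eq (by omega) (by omega), cc3 (by omega), cc3 (by omega)]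
  linarith

theorem uu_tt_mul : ∀ x y : ZMod 12, uu x → tt y → tt (x * y) := by decide +kernel
theorem tt_uu_mul : ∀ x y : ZMod 12, tt x → uu y → tt (x * y) := by decide +kernel
theorem tt_tt_mul : ∀ x y : ZMod 12, tt x → tt y → tt (x * y) := by decide +kernel

/-- **REL32** -/
theorem t_REL32 : S_REL32 := by
  intro n1 n2 h1 h1' h2
  have a1 : (n1 : ℤ) % 24 = 3 := by omega
  have a2 : (n2 : ℤ) % 24 = 11 := by omega
  have b1 : ¬ (9 : ℤ) ∣ n1 := by omega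
  have h8 := TS_eight n1 n2 F0
  have e : TS n1 n2 (sum8 F0) = TS n1 n2 (fun a b c => 1 + (-1) * Pl a b c) := by
    refine TS_congr fun x hx y hy => ?_
    obtain ⟨x0, x1, x2⟩ := vec3 a1 b1 hx
    simp only [cast_mul]
    refine P32 _ _ _ ?_
    rcases vec11 a2 hy with ⟨y0, y1, y2⟩ | ⟨y0, y1, y2⟩ | ⟨y0, y1, y2⟩
    · exact Or.inl ⟨uu_tt_mul _ _ x0 y0, uu_mul _ _ x1 y1, uu_mul _ _ x2 y2⟩
    · exact Or.inr (Or.inl ⟨uu_mul _ _ x0 y0, uu_tt_mul _ _ x1 y1, uu_mul _ _ x2 y2⟩)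
    · exact Or.inr (Or.inr ⟨uu_mul _ _ x0 y0, uu_mul _ _ x1 y1, uu_tt_mul _ _ x2 y2⟩)
  rw [TS_lin n1 n2 (-1) (fun _ _ _ => 1) Pl, TS_one, TS_Pl] at e
  rw [cp0_eq (by omega) (by omega), cc3 (by omega), cc11 (by omega)]
  linarith

/-- **REL31** -/
theorem t_REL31 : S_REL31 := by
  intro n1 n2 h1 h1' h2
  have a1 : (n1 : ℤ) % 24 = 3 := by omega
  have a2 : (n2 : ℤ) % 24 = 19 := by omega
  have b1 : ¬ (9 : ℤ) ∣ n1 := by omega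
  have e : TS n1 n2 F0 = TS n1 n2 (fun _ _ _ => 0) := by
    refine TS_congr fun x hx y hy => ?_
    obtain ⟨x0, x1, x2⟩ := vec3 a1 b1 hx
    simp only [cast_mul]
    refine P31 _ _ _ ?_
    rcases vec19 a2 hy with ⟨y0, y1, y2⟩ | ⟨y0, y1, y2⟩ | ⟨y0, y1, y2⟩
    · exact Or.inl ⟨uu_mul _ _ x0 y0, uu_tt_mul _ _ x1 y1, uu_tt_mul _ _ x2 y2⟩
    · exact Or.inr (Or.inl ⟨uu_tt_mul _ _ x0 y0, uu_mul _ _ x1 y1, uu_tt_mul _ _ x2 y2⟩)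
    · exact Or.inr (Or.inr ⟨uu_tt_mul _ _ x0 y0, uu_tt_mul _ _ x1 y1, uu_mul _ _ x2 y2⟩)
  have e2 : TS n1 n2 (fun _ _ _ => 0) = 0 := by unfold TS; simp
  have h : (cp0 n1 n2 : ℤ) = 0 := by
    rw [cp0_eq (by omega) (by omega), e, e2]
  exact_mod_cast h

/-! ### REL22 -/

/-- one if exactly one argument is an odd multiple of three -/
def E1 (a b c : ZMod 12) : ℤ := if D1 a b c then 1 else 0

/-- the indicator of `FULL22` -/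
def F2 (r3 r4 : ZMod 12) (a b c : ZMod 12) : ℤ :=
  if 4 * (a + b + c - r3) = 0 ∧ 3 * (a + b + c - r4) = 0 then 1 + E1 a b c else 0

/-- the indicator of `REL22` -/
def F1 (r3 r4 : ZMod 12) (a b c : ZMod 12) : ℤ :=
  if (4 * (a + b + c - r3) = 0 ∧ 3 * (a + b + c - r4) = 0) ∧ 3 * (a - b) = 0 ∧ 3 * (b - c) = 0
  then 1 + E1 a b c else 0

/-- the linear term -/
def Ls (a b c : ZMod 12) : ℤ := (1 - 2 * E1 a b c) * (x12 a + x12 b + x12 c)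

theorem P22a : ∀ a b c : ZMod 12, (D1 a b c ∨ D2 a b c) →
    (2 * sum8 (F1 1 3) a b c = 1 + Pl a b c + Ls a b c ∧
     2 * sum8 (F1 1 1) a b c = 1 + Pl a b c - Ls a b c) ∧
    (2 * sum8 (F1 2 3) a b c = 1 + Pl a b c - Ls a b c ∧
     2 * sum8 (F1 2 1) a b c = 1 + Pl a b c + Ls a b c) := by
  decide +kernel

theorem P22b : ∀ a b c : ZMod 12, (D1 a b c ∨ D2 a b c) →
    (sum8 (F2 1 3) a b c = 2 ∧ sum8 (F2 1 1) a b c = 2) ∧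
    (sum8 (F2 2 3) a b c = 2 ∧ sum8 (F2 2 1) a b c = 2) := by
  decide +kernel

theorem not_tt : ∀ x : ZMod 12, uu x → ¬ tt x := by decide +kernel

theorem D12_of {n1 n2 : ℤ} (h1 : n1 % 24 = 11) (h2 : n2 % 24 = 11) {x y : V3} (hx : x ∈ vec n1)
    (hy : y ∈ vec n2) : D1 ((x 0 : ZMod 12) * (y 0 : ZMod 12)) ((x 1 : ZMod 12) * (y 1 : ZMod 12))
      ((x 2 : ZMod 12) * (y 2 : ZMod 12)) ∨
    D2 ((x 0 : ZMod 12) * (y 0 : ZMod 12)) ((x 1 : ZMod 12) * (y 1 : ZMod 12))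
      ((x 2 : ZMod 12) * (y 2 : ZMod 12)) := by
  unfold D1 D2
  rcases vec11 h1 hx with ⟨x0, x1, x2⟩ | ⟨x0, x1, x2⟩ | ⟨x0, x1, x2⟩ <;>
  rcases vec11 h2 hy with ⟨y0, y1, y2⟩ | ⟨y0, y1, y2⟩ | ⟨y0, y1, y2⟩
  · exact Or.inl (Or.inl ⟨tt_tt_mul _ _ x0 y0, uu_mul _ _ x1 y1, uu_mul _ _ x2 y2⟩)
  · exact Or.inr (Or.inr (Or.inr ⟨tt_uu_mul _ _ x0 y0, uu_tt_mul _ _ x1 y1, uu_mul _ _ x2 y2⟩))
  · exact Or.inr (Or.inr (Or.inl ⟨tt_uu_mul _ _ x0 y0, uu_mul _ _ x1 y1, uu_tt_mul _ _ x2 y2⟩))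
  · exact Or.inr (Or.inr (Or.inr ⟨uu_tt_mul _ _ x0 y0, tt_uu_mul _ _ x1 y1, uu_mul _ _ x2 y2⟩))
  · exact Or.inl (Or.inr (Or.inl ⟨uu_mul _ _ x0 y0, tt_tt_mul _ _ x1 y1, uu_mul _ _ x2 y2⟩))
  · exact Or.inr (Or.inl ⟨uu_mul _ _ x0 y0, tt_uu_mul _ _ x1 y1, uu_tt_mul _ _ x2 y2⟩)
  · exact Or.inr (Or.inr (Or.inl ⟨uu_tt_mul _ _ x0 y0, uu_mul _ _ x1 y1, tt_uu_mul _ _ x2 y2⟩))
  · exact Or.inr (Or.inl ⟨uu_mul _ _ x0 y0, uu_tt_mul _ _ x1 y1, tt_uu_mul _ _ x2 y2⟩)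
  · exact Or.inl (Or.inr (Or.inr ⟨uu_mul _ _ x0 y0, uu_mul _ _ x1 y1, tt_tt_mul _ _ x2 y2⟩))

/-- one for an odd multiple of three -/
def ee (x : ZMod 12) : ℤ := if tt x then 1 else 0

/-- the mixed sum -/
noncomputable def ga (n : ℤ) : ℤ := ∑ v ∈ vec n, ee (v 0 : ZMod 12) * x12 (v 1 : ZMod 12)

theorem ga_eq (n : ℤ) (e : Equiv.Perm (Fin 3)) :
    ∑ v ∈ vec n, ee (v (e 0) : ZMod 12) * x12 (v (e 1) : ZMod 12) = ga n :=
  sum_perm n e (fun v => ee (v 0 : ZMod 12) * x12 (v 1 : ZMod 12))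

theorem ga_all (n : ℤ) : ∀ i j : Fin 3, i ≠ j →
    ∑ v ∈ vec n, ee (v i : ZMod 12) * x12 (v j : ZMod 12) = ga n := by
  have key : ∀ i j : Fin 3, i ≠ j → ∃ e : Equiv.Perm (Fin 3), e 0 = i ∧ e 1 = j := by decide +kernel
  intro i j hij
  obtain ⟨e, rfl, rfl⟩ := key i j hij
  exact ga_eq n e

theorem x12_split {n : ℤ} (hn : n % 24 = 11) {v : V3} (hv : v ∈ vec n) (i j k : Fin 3)
    (h : (i = 0 ∧ j = 1 ∧ k = 2) ∨ (i = 1 ∧ j = 0 ∧ k = 2) ∨ (i = 2 ∧ j = 0 ∧ k = 1)) :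
    x12 (v i : ZMod 12) = ee (v j : ZMod 12) * x12 (v i : ZMod 12) +
      ee (v k : ZMod 12) * x12 (v i : ZMod 12) := by
  have hD := vec11 hn hv
  rcases h with ⟨rfl, rfl, rfl⟩ | ⟨rfl, rfl, rfl⟩ | ⟨rfl, rfl, rfl⟩ <;>
  · generalize (v 0 : ZMod 12) = a at *
    generalize (v 1 : ZMod 12) = b at *
    generalize (v 2 : ZMod 12) = c at *
    revert a b c
    decide +kernel

theorem be_eq {n : ℤ} (hn : n % 24 = 11) (i : Fin 3) :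
    ∑ v ∈ vec n, x12 (v i : ZMod 12) = 2 * ga n := by
  fin_cases i
  · show ∑ v ∈ vec n, x12 (v 0 : ZMod 12) = 2 * ga n
    rw [Finset.sum_congr rfl (fun v hv => x12_split hn hv 0 1 2 (Or.inl ⟨rfl, rfl, rfl⟩)),
      Finset.sum_add_distrib, ga_all n 1 0 (by decide), ga_all n 2 0 (by decide)]
    ring
  · show ∑ v ∈ vec n, x12 (v 1 : ZMod 12) = 2 * ga n
    rw [Finset.sum_congr rfl (fun v hv => x12_split hn hv 1 0 2 (Or.inr (Or.inl ⟨rfl, rfl, rfl⟩))),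
      Finset.sum_add_distrib, ga_all n 0 1 (by decide), ga_all n 2 1 (by decide)]
    ring
  · show ∑ v ∈ vec n, x12 (v 2 : ZMod 12) = 2 * ga n
    rw [Finset.sum_congr rfl (fun v hv => x12_split hn hv 2 0 1 (Or.inr (Or.inr ⟨rfl, rfl, rfl⟩))),
      Finset.sum_add_distrib, ga_all n 0 2 (by decide), ga_all n 1 2 (by decide)]
    ring

theorem E1_eq : ∀ a b c : ZMod 12, uu a ∨ tt a → uu b ∨ tt b → uu c ∨ tt c → E1 a b c =
    ee a * (1 - ee b) * (1 - ee c) + (1 - ee a) * ee b * (1 - ee c) +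
      (1 - ee a) * (1 - ee b) * ee c := by
  decide +kernel

/-- the linear term as a sum of products -/
theorem Ls_eq (a b c a' b' c' : ZMod 12)
    (h : (tt a ∧ uu b ∧ uu c) ∨ (uu a ∧ tt b ∧ uu c) ∨ (uu a ∧ uu b ∧ tt c))
    (h' : (tt a' ∧ uu b' ∧ uu c') ∨ (uu a' ∧ tt b' ∧ uu c') ∨ (uu a' ∧ uu b' ∧ tt c')) :
    Ls (a * a') (b * b') (c * c') = x12 a * x12 a' + x12 b * x12 b' + x12 c * x12 c' -
      2 * ((ee a * x12 b) * (ee a' * x12 b') + (ee a * x12 c) * (ee a' * x12 c') +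
        (ee b * x12 a) * (ee b' * x12 a') + (ee b * x12 c) * (ee b' * x12 c') +
        (ee c * x12 a) * (ee c' * x12 a') + (ee c * x12 b) * (ee c' * x12 b')) := by
  have et : ∀ x : ZMod 12, tt x → ee x = 1 := fun x hx => if_pos hx
  have eu : ∀ x : ZMod 12, uu x → ee x = 0 := fun x hx => if_neg (not_tt x hx)
  have hE : E1 (a * a') (b * b') (c * c') =
      ee (a * a') * (1 - ee (b * b')) * (1 - ee (c * c')) +
      (1 - ee (a * a')) * ee (b * b') * (1 - ee (c * c')) +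
      (1 - ee (a * a')) * (1 - ee (b * b')) * ee (c * c') := by
    have ha : uu (a * a') ∨ tt (a * a') := by
      rcases h with h | h | h <;> rcases h' with h' | h' | h' <;>
      first
        | exact Or.inl (uu_mul _ _ h.1 h'.1)
        | exact Or.inr (tt_tt_mul _ _ h.1 h'.1)
        | exact Or.inr (tt_uu_mul _ _ h.1 h'.1)
        | exact Or.inr (uu_tt_mul _ _ h.1 h'.1)
    have hb : uu (b * b') ∨ tt (b * b') := by
      rcases h with h | h | h <;> rcases h' with h' | h' | h' <;>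
      first
        | exact Or.inl (uu_mul _ _ h.2.1 h'.2.1)
        | exact Or.inr (tt_tt_mul _ _ h.2.1 h'.2.1)
        | exact Or.inr (tt_uu_mul _ _ h.2.1 h'.2.1)
        | exact Or.inr (uu_tt_mul _ _ h.2.1 h'.2.1)
    have hc : uu (c * c') ∨ tt (c * c') := by
      rcases h with h | h | h <;> rcases h' with h' | h' | h' <;>
      first
        | exact Or.inl (uu_mul _ _ h.2.2 h'.2.2)
        | exact Or.inr (tt_tt_mul _ _ h.2.2 h'.2.2)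
        | exact Or.inr (tt_uu_mul _ _ h.2.2 h'.2.2)
        | exact Or.inr (uu_tt_mul _ _ h.2.2 h'.2.2)
    exact E1_eq _ _ _ ha hb hc
  unfold Ls
  rw [hE, x12_mul, x12_mul, x12_mul]
  rcases h with ⟨h0, h1, h2⟩ | ⟨h0, h1, h2⟩ | ⟨h0, h1, h2⟩ <;>
  rcases h' with ⟨k0, k1, k2⟩ | ⟨k0, k1, k2⟩ | ⟨k0, k1, k2⟩
  · rw [et _ (tt_tt_mul _ _ h0 k0), eu _ (uu_mul _ _ h1 k1), eu _ (uu_mul _ _ h2 k2),
      et _ h0, eu _ h1, eu _ h2, et _ k0, eu _ k1, eu _ k2, x12_tt _ h0, x12_tt _ k0]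
    ring
  · rw [et _ (tt_uu_mul _ _ h0 k0), et _ (uu_tt_mul _ _ h1 k1), eu _ (uu_mul _ _ h2 k2),
      et _ h0, eu _ h1, eu _ h2, eu _ k0, et _ k1, eu _ k2, x12_tt _ h0, x12_tt _ k1]
    ring
  · rw [et _ (tt_uu_mul _ _ h0 k0), eu _ (uu_mul _ _ h1 k1), et _ (uu_tt_mul _ _ h2 k2),
      et _ h0, eu _ h1, eu _ h2, eu _ k0, eu _ k1, et _ k2, x12_tt _ h0, x12_tt _ k2]
    ring
  · rw [et _ (uu_tt_mul _ _ h0 k0), et _ (tt_uu_mul _ _ h1 k1), eu _ (uu_mul _ _ h2 k2),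
      eu _ h0, et _ h1, eu _ h2, et _ k0, eu _ k1, eu _ k2, x12_tt _ h1, x12_tt _ k0]
    ring
  · rw [eu _ (uu_mul _ _ h0 k0), et _ (tt_tt_mul _ _ h1 k1), eu _ (uu_mul _ _ h2 k2),
      eu _ h0, et _ h1, eu _ h2, eu _ k0, et _ k1, eu _ k2, x12_tt _ h1, x12_tt _ k1]
    ring
  · rw [eu _ (uu_mul _ _ h0 k0), et _ (tt_uu_mul _ _ h1 k1), et _ (uu_tt_mul _ _ h2 k2),
      eu _ h0, et _ h1, eu _ h2, eu _ k0, eu _ k1, et _ k2, x12_tt _ h1, x12_tt _ k2]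
    ring
  · rw [et _ (uu_tt_mul _ _ h0 k0), eu _ (uu_mul _ _ h1 k1), et _ (tt_uu_mul _ _ h2 k2),
      eu _ h0, eu _ h1, et _ h2, et _ k0, eu _ k1, eu _ k2, x12_tt _ h2, x12_tt _ k0]
    ring
  · rw [eu _ (uu_mul _ _ h0 k0), et _ (uu_tt_mul _ _ h1 k1), et _ (tt_uu_mul _ _ h2 k2),
      eu _ h0, eu _ h1, et _ h2, eu _ k0, et _ k1, eu _ k2, x12_tt _ h2, x12_tt _ k1]
    ring
  · rw [eu _ (uu_mul _ _ h0 k0), eu _ (uu_mul _ _ h1 k1), et _ (tt_tt_mul _ _ h2 k2),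
      eu _ h0, eu _ h1, et _ h2, eu _ k0, eu _ k1, et _ k2, x12_tt _ h2, x12_tt _ k2]
    ring

theorem TS_Ls {n1 n2 : ℤ} (h1 : n1 % 24 = 11) (h2 : n2 % 24 = 11) : TS n1 n2 Ls = 0 := by
  have e : TS n1 n2 Ls = ∑ q ∈ vec n1 ×ˢ vec n2,
      (x12 (q.1 0 : ZMod 12) * x12 (q.2 0 : ZMod 12) + x12 (q.1 1 : ZMod 12) * x12 (q.2 1 : ZMod 12) +
        x12 (q.1 2 : ZMod 12) * x12 (q.2 2 : ZMod 12) -
      2 * ((ee (q.1 0) * x12 (q.1 1)) * (ee (q.2 0) * x12 (q.2 1)) +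
        (ee (q.1 0) * x12 (q.1 2)) * (ee (q.2 0) * x12 (q.2 2)) +
        (ee (q.1 1) * x12 (q.1 0)) * (ee (q.2 1) * x12 (q.2 0)) +
        (ee (q.1 1) * x12 (q.1 2)) * (ee (q.2 1) * x12 (q.2 2)) +
        (ee (q.1 2) * x12 (q.1 0)) * (ee (q.2 2) * x12 (q.2 0)) +
        (ee (q.1 2) * x12 (q.1 1)) * (ee (q.2 2) * x12 (q.2 1)))) := by
    unfold TS
    refine Finset.sum_congr rfl fun q hq => ?_
    rw [Finset.mem_product] at hq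
    rw [cast_mul, cast_mul, cast_mul]
    exact Ls_eq _ _ _ _ _ _ (vec11 h1 hq.1) (vec11 h2 hq.2)
  have kx : ∀ i : Fin 3, ∑ q ∈ vec n1 ×ˢ vec n2, x12 (q.1 i : ZMod 12) * x12 (q.2 i : ZMod 12) =
      (2 * ga n1) * (2 * ga n2) := by
    intro i
    rw [sum_mul' n1 n2 (fun v => x12 (v i : ZMod 12)) (fun v => x12 (v i : ZMod 12)), be_eq h1,
      be_eq h2]
  have kg : ∀ i j : Fin 3, i ≠ j → ∑ q ∈ vec n1 ×ˢ vec n2, (ee (q.1 i : ZMod 12) * x12 (q.1 j : ZMod 12)) *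
      (ee (q.2 i : ZMod 12) * x12 (q.2 j : ZMod 12)) = ga n1 * ga n2 := by
    intro i j hij
    rw [sum_mul' n1 n2 (fun v => ee (v i : ZMod 12) * x12 (v j : ZMod 12))
      (fun v => ee (v i : ZMod 12) * x12 (v j : ZMod 12)), ga_all n1 i j hij, ga_all n2 i j hij]
  rw [e, Finset.sum_sub_distrib, ← Finset.mul_sum]
  simp only [Finset.sum_add_distrib]
  rw [kx, kx, kx, kg 0 1 (by decide), kg 0 2 (by decide), kg 1 0 (by decide), kg 1 2 (by decide),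
    kg 2 0 (by decide), kg 2 1 (by decide)]
  ring

/-! ### from inner products to pairs -/

theorem cauchy {n1 n2 : ℤ} {x y : V3} (hx : x ∈ vec n1) (hy : y ∈ vec n2) :
    (x ⬝ᵥ y) ^ 2 ≤ n1 * n2 := by
  rw [mem_vec] at hx hy
  rw [dot3, ← hx, ← hy]
  nlinarith [sq_nonneg (x 0 * y 1 - x 1 * y 0), sq_nonneg (x 0 * y 2 - x 2 * y 0),
    sq_nonneg (x 1 * y 2 - x 2 * y 1)]

theorem mem_Ioo' {n1 n2 B : ℤ} (hB : n1 * n2 < B ^ 2) (hB0 : 0 < B) {x y : V3} (hx : x ∈ vec n1)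
    (hy : y ∈ vec n2) : x ⬝ᵥ y ∈ Ioo (-B) B := by
  have h := cauchy hx hy
  have h2 : (x ⬝ᵥ y) ^ 2 < B ^ 2 := lt_of_le_of_lt h hB
  have h3 := abs_lt_of_sq_lt_sq h2 hB0.le
  rw [abs_lt] at h3
  exact Finset.mem_Ioo.2 h3

/-- the sum of the counts over the inner products with a property -/
theorem sum_cp {n1 n2 B : ℤ} (hB : n1 * n2 < B ^ 2) (hB0 : 0 < B) (P : ℤ → Prop) [DecidablePred P] :
    ∑ b ∈ (Ioo (-B) B).filter P, (cp n1 b n2 : ℤ) =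
      ∑ q ∈ vec n1 ×ˢ vec n2, if P (q.1 ⬝ᵥ q.2) then 1 else 0 := by
  have h := Finset.sum_card_fiberwise_eq_card_filter (vec n1 ×ˢ vec n2) ((Ioo (-B) B).filter P)
    (fun q => q.1 ⬝ᵥ q.2)
  have h2 : ∑ b ∈ (Ioo (-B) B).filter P, (cp n1 b n2 : ℤ) =
      ((∑ b ∈ (Ioo (-B) B).filter P, ((vec n1 ×ˢ vec n2).filter fun q => q.1 ⬝ᵥ q.2 = b).card : ℕ) :
        ℤ) := by
    push_cast
    rfl
  rw [h2, h, Finset.card_filter]
  simp only [Nat.cast_sum, Nat.cast_ite, Nat.cast_one, Nat.cast_zero]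
  refine Finset.sum_congr rfl fun q hq => ?_
  rw [Finset.mem_product] at hq
  have h3 := mem_Ioo' hB hB0 hq.1 hq.2
  simp only [Finset.mem_filter, h3, true_and]

theorem sum_cp3 {n1 n2 B : ℤ} (hB : n1 * n2 < B ^ 2) (hB0 : 0 < B) (P : ℤ → Prop)
    [DecidablePred P] :
    ∑ b ∈ (Ioo (-B) B).filter P, (cp3 n1 b n2 : ℤ) =
      ∑ q ∈ vec n1 ×ˢ vec n2, if P (q.1 ⬝ᵥ q.2) ∧ ∀ i, (3 : ℤ) ∣ q.1 i + (q.1 ⬝ᵥ q.2) * q.2 i
        then 1 else 0 := by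
  have h := Finset.sum_card_fiberwise_eq_card_filter ((vec n1 ×ˢ vec n2).filter fun q =>
    ∀ i, (3 : ℤ) ∣ q.1 i + (q.1 ⬝ᵥ q.2) * q.2 i) ((Ioo (-B) B).filter P) (fun q => q.1 ⬝ᵥ q.2)
  have h2 : ∑ b ∈ (Ioo (-B) B).filter P, (cp3 n1 b n2 : ℤ) =
      ((∑ b ∈ (Ioo (-B) B).filter P, (((vec n1 ×ˢ vec n2).filter fun q =>
        ∀ i, (3 : ℤ) ∣ q.1 i + (q.1 ⬝ᵥ q.2) * q.2 i).filter fun q => q.1 ⬝ᵥ q.2 = b).card : ℕ) :
        ℤ) := by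
    push_cast
    refine Finset.sum_congr rfl fun b _ => ?_
    unfold cp3
    rw [Finset.filter_filter]
    congr 2
    refine Finset.filter_congr fun q _ => ?_
    constructor
    · rintro ⟨rfl, h4⟩
      exact ⟨h4, rfl⟩
    · rintro ⟨h4, rfl⟩
      exact ⟨rfl, h4⟩
  rw [h2, h, Finset.filter_filter, Finset.card_filter]
  simp only [Nat.cast_sum, Nat.cast_ite, Nat.cast_one, Nat.cast_zero]
  refine Finset.sum_congr rfl fun q hq => ?_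
  rw [Finset.mem_product] at hq
  have h3 := mem_Ioo' hB hB0 hq.1 hq.2
  simp only [Finset.mem_filter, h3, true_and]
  by_cases hp : P (q.1 ⬝ᵥ q.2)
  · simp [hp]
  · simp [hp]

/-- vectors modulo three -/
def pat (a b c : ZMod 3) : Prop := (a = 0 ∧ b ≠ 0 ∧ c ≠ 0) ∨ (a ≠ 0 ∧ b = 0 ∧ c ≠ 0) ∨
  (a ≠ 0 ∧ b ≠ 0 ∧ c = 0)

instance (a b c : ZMod 3) : Decidable (pat a b c) := by unfold pat; infer_instance

theorem prop3 : ∀ a b c a' b' c' : ZMod 3, pat a b c → pat a' b' c' →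
    a * a' + b * b' + c * c' ≠ 0 →
    ((a + (a * a' + b * b' + c * c') * a' = 0 ∧ b + (a * a' + b * b' + c * c') * b' = 0 ∧
      c + (a * a' + b * b' + c * c') * c' = 0) ↔ pat (a * a') (b * b') (c * c')) := by
  decide +kernel

theorem z3 (x : ℤ) : (x : ZMod 3) = 0 ↔ x % 3 = 0 := by
  rw [ZMod.intCast_zmod_eq_zero_iff_dvd]
  push_cast
  omega

theorem tt_iff {x : ℤ} (h : x % 2 = 1) : tt (x : ZMod 12) ↔ (x : ZMod 3) = 0 := by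
  rw [z3]
  constructor
  · intro h2
    by_contra h3
    exact not_tt _ (uu_of h h3) h2
  · exact tt_of h

theorem uu_iff {x : ℤ} (h : x % 2 = 1) : uu (x : ZMod 12) ↔ (x : ZMod 3) ≠ 0 := by
  rw [Ne, z3]
  constructor
  · intro h2 h3
    exact not_tt _ h2 (tt_of h h3)
  · exact uu_of h

theorem all3 (P : Fin 3 → Prop) : (∀ i, P i) ↔ P 0 ∧ P 1 ∧ P 2 := by
  constructor
  · exact fun h => ⟨h 0, h 1, h 2⟩
  · rintro ⟨h0, h1, h2⟩ i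
    fin_cases i
    · exact h0
    · exact h1
    · exact h2

theorem propE {n1 n2 : ℤ} (h1 : n1 % 24 = 11) (h2 : n2 % 24 = 11) {x y : V3} (hx : x ∈ vec n1)
    (hy : y ∈ vec n2) (h3 : ¬ (3 : ℤ) ∣ x ⬝ᵥ y) :
    (∀ i, (3 : ℤ) ∣ x i + (x ⬝ᵥ y) * y i) ↔ D1 ((x 0 * y 0 : ℤ) : ZMod 12)
      ((x 1 * y 1 : ℤ) : ZMod 12) ((x 2 * y 2 : ℤ) : ZMod 12) := by
  have ox := odd_vec (by omega) hx
  have oy := odd_vec (by omega) hy
  have vx := vec11 h1 hx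
  have vy := vec11 h2 hy
  rw [tt_iff ox.1, tt_iff ox.2.1, tt_iff ox.2.2, uu_iff ox.1, uu_iff ox.2.1, uu_iff ox.2.2] at vx
  rw [tt_iff oy.1, tt_iff oy.2.1, tt_iff oy.2.2, uu_iff oy.1, uu_iff oy.2.1, uu_iff oy.2.2] at vy
  have o0 : (x 0 * y 0) % 2 = 1 := by rw [Int.mul_emod, ox.1, oy.1]; rfl
  have o1 : (x 1 * y 1) % 2 = 1 := by rw [Int.mul_emod, ox.2.1, oy.2.1]; rfl
  have o2 : (x 2 * y 2) % 2 = 1 := by rw [Int.mul_emod, ox.2.2, oy.2.2]; rfl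
  unfold D1
  rw [tt_iff o0, tt_iff o1, tt_iff o2, uu_iff o0, uu_iff o1, uu_iff o2]
  have d3 : ∀ z : ℤ, (3 : ℤ) ∣ z ↔ (z : ZMod 3) = 0 := by
    intro z
    rw [ZMod.intCast_zmod_eq_zero_iff_dvd]
    rfl
  rw [all3, d3, d3, d3]
  rw [d3, dot3] at h3
  rw [dot3]
  push_cast at h3 ⊢
  exact prop3 _ _ _ _ _ _ vx vy h3

theorem cond34 (r3 r4 b : ℤ) (h3 : r3 = 1 ∨ r3 = 2) (h4 : r4 = 1 ∨ r4 = 3) :
    (b % 3 = r3 ∧ b % 4 = r4) ↔ (4 * ((b : ZMod 12) - (r3 : ZMod 12)) = 0 ∧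
      3 * ((b : ZMod 12) - (r4 : ZMod 12)) = 0) := by
  have e1 : (b : ZMod 12) - (r3 : ZMod 12) = ((b - r3 : ℤ) : ZMod 12) := by push_cast; rfl
  have e2 : (b : ZMod 12) - (r4 : ZMod 12) = ((b - r4 : ℤ) : ZMod 12) := by push_cast; rfl
  rw [e1, e2, ← dvd3, ← dvd4]
  omega

/-- the sums as sums of functions of the products -/
theorem full_TS {n1 n2 : ℤ} (h1 : n1 % 24 = 11) (h2 : n2 % 24 = 11) (r3 r4 : ℤ)
    (h3 : r3 = 1 ∨ r3 = 2) (h4 : r4 = 1 ∨ r4 = 3) (B : ℤ) (hB : n1 * n2 < B ^ 2) (hB0 : 0 < B) :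
    ∑ b ∈ (Ioo (-B) B).filter (fun b : ℤ => b % 3 = r3 ∧ b % 4 = r4),
      ((cp n1 b n2 : ℤ) + cp3 n1 b n2) = TS n1 n2 (F2 r3 r4) := by
  rw [Finset.sum_add_distrib, sum_cp hB hB0, sum_cp3 hB hB0, ← Finset.sum_add_distrib]
  unfold TS
  refine Finset.sum_congr rfl fun q hq => ?_
  rw [Finset.mem_product] at hq
  have hc := cond34 r3 r4 (q.1 ⬝ᵥ q.2) h3 h4
  have hd : ((q.1 ⬝ᵥ q.2 : ℤ) : ZMod 12) = ((q.1 0 * q.2 0 : ℤ) : ZMod 12) +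
      ((q.1 1 * q.2 1 : ℤ) : ZMod 12) + ((q.1 2 * q.2 2 : ℤ) : ZMod 12) := by
    rw [dot3]; push_cast; rfl
  rw [hd] at hc
  unfold F2
  by_cases hP : (q.1 ⬝ᵥ q.2) % 3 = r3 ∧ (q.1 ⬝ᵥ q.2) % 4 = r4
  · rw [if_pos hP, if_pos (hc.1 hP)]
    have h5 : ¬ (3 : ℤ) ∣ q.1 ⬝ᵥ q.2 := by omega
    have hE := propE h1 h2 hq.1 hq.2 h5
    unfold E1
    by_cases hq3 : ∀ i, (3 : ℤ) ∣ q.1 i + (q.1 ⬝ᵥ q.2) * q.2 i
    · rw [if_pos ⟨hP, hq3⟩, if_pos (hE.1 hq3)]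
    · rw [if_neg (fun h => hq3 h.2), if_neg (fun h => hq3 (hE.2 h))]
  · rw [if_neg hP, if_neg (fun h => hP (hc.2 h)), if_neg (fun h => hP h.1)]
    rfl

theorem rel_TS {n1 n2 : ℤ} (h1 : n1 % 24 = 11) (h2 : n2 % 24 = 11) (r3 r4 : ℤ)
    (h3 : r3 = 1 ∨ r3 = 2) (h4 : r4 = 1 ∨ r4 = 3) (B : ℤ) (hB : n1 * n2 < B ^ 2) (hB0 : 0 < B) :
    ∑ b ∈ (Ioo (-B) B).filter
      (fun b : ℤ => b % 3 = r3 ∧ b % 4 = r4 ∧ (32 : ℤ) ∣ n1 * n2 - b ^ 2),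
      ((cp n1 b n2 : ℤ) + cp3 n1 b n2) = TS n1 n2 (F1 r3 r4) := by
  rw [Finset.sum_add_distrib, sum_cp hB hB0, sum_cp3 hB hB0, ← Finset.sum_add_distrib]
  unfold TS
  refine Finset.sum_congr rfl fun q hq => ?_
  rw [Finset.mem_product] at hq
  have hc := cond34 r3 r4 (q.1 ⬝ᵥ q.2) h3 h4
  have hd : ((q.1 ⬝ᵥ q.2 : ℤ) : ZMod 12) = ((q.1 0 * q.2 0 : ℤ) : ZMod 12) +
      ((q.1 1 * q.2 1 : ℤ) : ZMod 12) + ((q.1 2 * q.2 2 : ℤ) : ZMod 12) := by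
    rw [dot3]; push_cast; rfl
  rw [hd] at hc
  have o1 := odd_vec (by omega) hq.1
  have o2 := odd_vec (by omega) hq.2
  have h32 := d32 o1 o2
  have m1 := (mem_vec _ _).1 hq.1
  have m2 := (mem_vec _ _).1 hq.2
  rw [m1, m2, ← dot3, dvd4, dvd4] at h32
  have hc' := and_congr hc h32
  rw [and_assoc] at hc'
  have hs : ∀ x y : ℤ, ((x - y : ℤ) : ZMod 12) = (x : ZMod 12) - (y : ZMod 12) := fun x y => by
    push_cast; rfl
  rw [hs, hs] at hc'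
  unfold F1
  by_cases hP : (q.1 ⬝ᵥ q.2) % 3 = r3 ∧ (q.1 ⬝ᵥ q.2) % 4 = r4 ∧
      (32 : ℤ) ∣ n1 * n2 - (q.1 ⬝ᵥ q.2) ^ 2
  · rw [if_pos hP, if_pos (hc'.1 hP)]
    have h5 : ¬ (3 : ℤ) ∣ q.1 ⬝ᵥ q.2 := by omega
    have hE := propE h1 h2 hq.1 hq.2 h5
    unfold E1
    by_cases hq3 : ∀ i, (3 : ℤ) ∣ q.1 i + (q.1 ⬝ᵥ q.2) * q.2 i
    · rw [if_pos ⟨hP, hq3⟩, if_pos (hE.1 hq3)]
    · rw [if_neg (fun h => hq3 h.2), if_neg (fun h => hq3 (hE.2 h))]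
  · rw [if_neg hP, if_neg (fun h => hP (hc'.2 h)), if_neg (fun h => hP h.1)]
    rfl

/-- **FULL22** -/
theorem t_FULL22 : S_FULL22 := by
  intro n1 n2 h1 h2 r3 r4 h3 h4 B hB hB0
  have a1 : (n1 : ℤ) % 24 = 11 := by omega
  have a2 : (n2 : ℤ) % 24 = 11 := by omega
  rw [full_TS a1 a2 r3 r4 h3 h4 B hB hB0]
  have h8 := TS_eight n1 n2 (F2 r3 r4)
  have e : TS n1 n2 (sum8 (F2 r3 r4)) = TS n1 n2 (fun _ _ _ => 2) := by
    refine TS_congr fun x hx y hy => ?_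
    simp only [cast_mul]
    have h := P22b _ _ _ (D12_of a1 a2 hx hy)
    rcases h3 with rfl | rfl <;> rcases h4 with rfl | rfl
    · simpa using h.1.2
    · simpa using h.1.1
    · simpa using h.2.2
    · simpa using h.2.1
  have e2 : TS n1 n2 (fun _ _ _ => 2) = 2 * (rr n1 * rr n2) := by
    rw [← TS_one]
    unfold TS
    rw [Finset.mul_sum]
    simp
  rw [e2] at e
  linarith

/-- **REL22** -/
theorem t_REL22 : S_REL22 := by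
  intro n1 n2 h1 h2 r3 r4 h3 h4 B hB hB0
  have a1 : (n1 : ℤ) % 24 = 11 := by omega
  have a2 : (n2 : ℤ) % 24 = 11 := by omega
  rw [rel_TS a1 a2 r3 r4 h3 h4 B hB hB0]
  have h8 := TS_eight n1 n2 (F1 r3 r4)
  have hs : ∃ k : ℤ, TS n1 n2 (fun a b c => 2 * sum8 (F1 r3 r4) a b c) =
      TS n1 n2 (fun a b c => (1 + 1 * Pl a b c) + k * Ls a b c) := by
    rcases h3 with rfl | rfl <;> rcases h4 with rfl | rfl
    · refine ⟨-1, TS_congr fun x hx y hy => ?_⟩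
      simp only [cast_mul]
      have h := (P22a _ _ _ (D12_of a1 a2 hx hy)).1.2
      norm_num at h ⊢
      rw [h]; ring
    · refine ⟨1, TS_congr fun x hx y hy => ?_⟩
      simp only [cast_mul]
      have h := (P22a _ _ _ (D12_of a1 a2 hx hy)).1.1
      norm_num at h ⊢
      rw [h]
    · refine ⟨1, TS_congr fun x hx y hy => ?_⟩
      simp only [cast_mul]
      have h := (P22a _ _ _ (D12_of a1 a2 hx hy)).2.2
      norm_num at h ⊢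
      rw [h]
    · refine ⟨-1, TS_congr fun x hx y hy => ?_⟩
      simp only [cast_mul]
      have h := (P22a _ _ _ (D12_of a1 a2 hx hy)).2.1
      norm_num at h ⊢
      rw [h]; ring
  obtain ⟨k, hk⟩ := hs
  rw [TS_lin n1 n2 k (fun a b c => 1 + 1 * Pl a b c) Ls, TS_lin n1 n2 1 (fun _ _ _ => 1) Pl,
    TS_Ls a1 a2, TS_one, TS_Pl] at hk
  have e2 : TS n1 n2 (fun a b c => 2 * sum8 (F1 r3 r4) a b c) = 2 * TS n1 n2 (sum8 (F1 r3 r4)) := by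
    unfold TS
    rw [Finset.mul_sum]
  rw [cc11 (by omega), cc11 (by omega)]
  linarith

end Pool.Agent.N877.P24
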